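import Pool.Graph.R_pool_sql_team_seeded_3997aac3.Q162.BD.Gz
import Pool.Graph.R_pool_sql_team_seeded_3997aac3.Q66.GB.Gam
import Pool.Graph.R_pool_sql_team_seeded_3997aac3.Q182.GB.Slw
import Pool.Graph.R_pool_sql_team_seeded_3997aac3.Q261.BD.Lm
import Pool.Graph.R_pool_sql_team_seeded_1acbe0a2.Y907.AP.SQ
import Pool.Graph.R_pool_sql_team_seeded_1acbe0a2.Y340.AP.Strip
import Pool.Graph.R_seed8.H370R2.DirGood

/-!
# Project BD (helper286): the Riemann xi function, `ξ = γ G`, `G s = (s-1) ζ(s)` (helper575)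
-/

set_option autoImplicit false

namespace Pool.Agent.H575.BD

open Complex MeasureTheory Filter Topology Set
open scoped ComplexConjugate
open Pool.Agent.Q162.BD (G G_ne G_one G_diff)
open Pool.Agent.Y922.AP (xi)
open Pool.Agent.Y907.AP (xi_diff xi_sub xi_conj)
open Pool.Agent.Q66.GB (dg_bound dgr gr_ne gr_hd)

/-- the factor in `ξ = γ G` -/
noncomputable def gm (s : ℂ) : ℂ := s / 2 * Gammaℝ s

theorem gm_ne {s : ℂ} (hs : 0 < s.re) : gm s ≠ 0 := by
  unfold gm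
  refine mul_ne_zero (div_ne_zero ?_ two_ne_zero) (gr_ne hs)
  rintro rfl
  simp at hs

theorem gm_hd {s : ℂ} (hs : 0 < s.re) : HasDerivAt gm (gm s * (1 / s + dgr s)) s := by
  have h0 : s ≠ 0 := by
    rintro rfl
    simp at hs
  have h1 : HasDerivAt (fun s : ℂ => s / 2) (1 / 2) s := (hasDerivAt_id s).div_const 2
  have h2 := h1.mul (gr_hd hs)
  refine h2.congr_deriv ?_
  unfold gm
  field_simp

theorem gm_ld {s : ℂ} (hs : 0 < s.re) : deriv gm s / gm s = 1 / s + dgr s := by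
  rw [(gm_hd hs).deriv, mul_div_cancel_left₀ _ (gm_ne hs)]

theorem X_eq {s : ℂ} (hs : 0 < s.re) : xi s = gm s * G s := by
  have h0 : s ≠ 0 := by
    rintro rfl
    simp at hs
  rcases eq_or_ne s 1 with rfl | h1
  · rw [G_one]
    unfold xi gm
    rw [Complex.Gammaℝ_one]
    norm_num
  · rw [Pool.Agent.Y340.AP.xi_eq h0 h1 (gr_ne hs), G_ne h1]
    unfold gm
    ring

theorem X_fe (s : ℂ) : xi s = conj (xi (1 - conj s)) := by
  rw [xi_sub, xi_conj, Complex.conj_conj]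

theorem gamma_le' {x : ℝ} (hx : 1 ≤ x) : Real.Gamma x ≤ Real.exp (2 * (x + 1) ^ (3 / 2 : ℝ)) := by
  rcases le_total x 2 with h2 | h2
  · have h1 : Real.Gamma x ≤ 1 := by
      have hc := Real.convexOn_Gamma
      have h3 := hc.2 (mem_Ioi.2 (show (0 : ℝ) < 1 by norm_num)) (mem_Ioi.2 (show (0 : ℝ) < 2 by norm_num))
        (show (0 : ℝ) ≤ 2 - x by linarith) (show (0 : ℝ) ≤ x - 1 by linarith) (by ring)
      rw [Real.Gamma_one, Real.Gamma_two, smul_eq_mul, smul_eq_mul] at h3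
      simp only [smul_eq_mul] at h3
      have e : (2 - x) * 1 + (x - 1) * 2 = x := by ring
      rw [e] at h3
      linarith
    refine h1.trans (Real.one_le_exp ?_)
    have : 0 ≤ (x + 1) ^ (3 / 2 : ℝ) := Real.rpow_nonneg (by linarith) _
    linarith
  · have h0 : (x : ℝ) ≤ ⌈x⌉₊ := Nat.le_ceil x
    have h1 : Real.Gamma x ≤ Real.Gamma ((⌈x⌉₊ : ℝ) + 1) := by
      apply (Real.Gamma_strictMonoOn_Ici).monotoneOn
      · exact h2
      · show (2 : ℝ) ≤ _
        linarith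
      · linarith
    rw [Real.Gamma_nat_eq_factorial] at h1
    have h2 : ((⌈x⌉₊.factorial : ℕ) : ℝ) ≤ (⌈x⌉₊ : ℝ) ^ ⌈x⌉₊ := by
      exact_mod_cast Nat.factorial_le_pow _
    have hp : (0 : ℝ) < ⌈x⌉₊ := by linarith
    have h3 : (⌈x⌉₊ : ℝ) ^ ⌈x⌉₊ = Real.exp (Real.log ⌈x⌉₊ * ⌈x⌉₊) := by
      rw [← Real.rpow_natCast, Real.rpow_def_of_pos hp]
    have h4 : Real.log ⌈x⌉₊ * ⌈x⌉₊ ≤ 2 * (x + 1) ^ (3 / 2 : ℝ) := by
      have h5 : Real.log ⌈x⌉₊ ≤ (⌈x⌉₊ : ℝ) ^ (1 / 2 : ℝ) / (1 / 2) :=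
        Real.log_le_rpow_div hp.le (by norm_num)
      have h6 : (⌈x⌉₊ : ℝ) ^ (3 / 2 : ℝ) = (⌈x⌉₊ : ℝ) ^ (1 / 2 : ℝ) * ⌈x⌉₊ := by
        have h7 : (3 / 2 : ℝ) = 1 / 2 + 1 := by norm_num
        rw [h7, Real.rpow_add hp, Real.rpow_one]
      have h7 : (⌈x⌉₊ : ℝ) ≤ x + 1 := (Nat.ceil_lt_add_one (by linarith)).le
      have h8 : (⌈x⌉₊ : ℝ) ^ (3 / 2 : ℝ) ≤ (x + 1) ^ (3 / 2 : ℝ) :=
        Real.rpow_le_rpow hp.le h7 (by norm_num)
      nlinarith
    calc Real.Gamma x ≤ Real.exp (Real.log ⌈x⌉₊ * ⌈x⌉₊) := by rw [← h3]; exact h1.trans h2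
      _ ≤ _ := Real.exp_le_exp.2 h4

/-- the growth of `ξ` in the right half-plane -/
theorem X_growth_right : ∃ K : ℝ, 0 ≤ K ∧ ∀ s : ℂ, 1 / 2 ≤ s.re →
    ‖xi s‖ ≤ Real.exp (K * (1 + ‖s‖) ^ (3 / 2 : ℝ)) := by
  obtain ⟨C, hC0, hC⟩ := Pool.Agent.Y340.AP.L0_bound 3
  refine ⟨C + 8, by linarith, fun s hs => ?_⟩
  set x : ℝ := 1 + ‖s‖ with hx
  have hx1 : 1 ≤ x := by have := norm_nonneg s; linarith
  have hx32 : x ≤ x ^ (3 / 2 : ℝ) := by
    calc x = x ^ (1 : ℝ) := (Real.rpow_one x).symm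
      _ ≤ _ := Real.rpow_le_rpow_of_exponent_le hx1 (by norm_num)
  have hx320 : 0 ≤ x ^ (3 / 2 : ℝ) := by linarith
  have hs1 : ‖s * (s - 1)‖ ≤ x ^ 2 := by
    rw [norm_mul]
    have h1 : ‖s - 1‖ ≤ x := by
      have := norm_sub_le s 1
      rw [norm_one] at this
      linarith
    have h2 : ‖s‖ ≤ x := by linarith
    calc ‖s‖ * ‖s - 1‖ ≤ x * x := mul_le_mul h2 h1 (norm_nonneg _) (by linarith)
      _ = x ^ 2 := by ring
  have hxe : x ^ 2 ≤ Real.exp (2 * x) := by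
    have h1 : x ≤ Real.exp x := by linarith [Real.add_one_le_exp x]
    calc x ^ 2 ≤ Real.exp x ^ 2 := pow_le_pow_left₀ (by linarith) h1 2
      _ = Real.exp (2 * x) := by rw [← Real.exp_nat_mul]; norm_num
  rcases le_total s.re 3 with h3 | h3
  · have h4 := hC s (abs_le.2 ⟨by linarith, h3⟩)
    have h5 : ‖xi s‖ ≤ (x ^ 2 * C + 1) / 2 := by
      unfold xi
      rw [norm_div, Complex.norm_ofNat]
      apply div_le_div_of_nonneg_right _ (by norm_num)
      refine (norm_add_le _ _).trans ?_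
      rw [norm_one, norm_mul]
      have := mul_le_mul hs1 h4 (norm_nonneg _) (by positivity)
      linarith
    have h6 : C + 1 ≤ Real.exp C := Real.add_one_le_exp C
    have h7 : Real.exp C * Real.exp (2 * x) ≤ Real.exp ((C + 8) * x ^ (3 / 2 : ℝ)) := by
      rw [← Real.exp_add]
      apply Real.exp_le_exp.2
      have : C * 1 ≤ C * x ^ (3 / 2 : ℝ) := mul_le_mul_of_nonneg_left (by linarith) hC0
      linarith
    have h8 : (1 : ℝ) ≤ Real.exp (2 * x) := Real.one_le_exp (by linarith)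
    have h9 : 0 ≤ x ^ 2 := by positivity
    nlinarith [Real.exp_pos C, Real.exp_pos (2 * x)]
  · have h0 : s ≠ 0 := by
      rintro rfl
      simp at h3
      linarith
    have h1 : s ≠ 1 := by
      rintro rfl
      simp at h3
    have hre : (s / 2).re = s.re / 2 := by simp
    rw [Pool.Agent.Y340.AP.xi_eq h0 h1 (gr_ne (by linarith))]
    have h4 := Pool.Agent.Y340.AP.norm_zeta_le_two (s := s) (by linarith)
    have h5 : ‖Gammaℝ s‖ ≤ Real.exp (4 * x ^ (3 / 2 : ℝ)) := by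
      rw [Gammaℝ_def, norm_mul]
      have a1 : ‖(Real.pi : ℂ) ^ (-s / 2)‖ ≤ 1 := by
        rw [Complex.norm_cpow_eq_rpow_re_of_pos Real.pi_pos]
        apply Real.rpow_le_one_of_one_le_of_nonpos (by linarith [Real.pi_gt_three])
        have : (-s / 2).re = -s.re / 2 := by simp
        rw [this]
        linarith
      have a2 : ‖Gamma (s / 2)‖ ≤ Real.exp (4 * x ^ (3 / 2 : ℝ)) := by
        refine (Pool.Agent.Q182.GB.norm_Gamma_le (by rw [hre]; linarith)).trans ?_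
        refine (gamma_le' (by rw [hre]; linarith)).trans (Real.exp_le_exp.2 ?_)
        have : ((s / 2).re + 1) ^ (3 / 2 : ℝ) ≤ x ^ (3 / 2 : ℝ) := by
          apply Real.rpow_le_rpow
          · rw [hre]; linarith
          · rw [hre]
            have := Complex.re_le_norm s
            linarith
          · norm_num
        linarith
      calc _ ≤ 1 * Real.exp (4 * x ^ (3 / 2 : ℝ)) := mul_le_mul a1 a2 (norm_nonneg _) zero_le_one
        _ = _ := one_mul _
    rw [norm_div, norm_mul (s * (s - 1)), norm_mul (Gammaℝ s), Complex.norm_ofNat]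
    have h6 : ‖s * (s - 1)‖ * (‖Gammaℝ s‖ * ‖riemannZeta s‖) / 2 ≤
        Real.exp (2 * x) * (Real.exp (4 * x ^ (3 / 2 : ℝ)) * 2) / 2 := by
      apply div_le_div_of_nonneg_right _ (by norm_num)
      exact mul_le_mul (hs1.trans hxe) (mul_le_mul h5 h4 (norm_nonneg _) (Real.exp_pos _).le) (by positivity)
        (Real.exp_pos _).le
    refine h6.trans ?_
    have h7 : Real.exp (2 * x) * (Real.exp (4 * x ^ (3 / 2 : ℝ)) * 2) / 2 =
        Real.exp (2 * x + 4 * x ^ (3 / 2 : ℝ)) := by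
      rw [Real.exp_add]
      ring
    rw [h7]
    apply Real.exp_le_exp.2
    nlinarith

/-- the growth of `ξ` -/
theorem X_growth : ∃ K : ℝ, 0 ≤ K ∧ ∀ s : ℂ, ‖xi s‖ ≤ Real.exp (K * (1 + ‖s‖) ^ (3 / 2 : ℝ)) := by
  obtain ⟨K, hK, h⟩ := X_growth_right
  refine ⟨4 * K, by linarith, fun s => ?_⟩
  have hn := norm_nonneg s
  have e0 : 0 ≤ (1 + ‖s‖) ^ (3 / 2 : ℝ) := by positivity
  rcases le_total (1 / 2) s.re with h1 | h1
  · refine (h s h1).trans (Real.exp_le_exp.2 ?_)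
    have : 0 ≤ K * (1 + ‖s‖) ^ (3 / 2 : ℝ) := by positivity
    linarith
  · rw [← xi_sub]
    refine (h (1 - s) (by rw [sub_re, one_re]; linarith)).trans (Real.exp_le_exp.2 ?_)
    have h2 : ‖1 - s‖ ≤ 1 + ‖s‖ := by
      have := norm_sub_le 1 s
      rwa [norm_one] at this
    have h3 : (1 + ‖1 - s‖) ^ (3 / 2 : ℝ) ≤ 4 * (1 + ‖s‖) ^ (3 / 2 : ℝ) := by
      calc (1 + ‖1 - s‖) ^ (3 / 2 : ℝ) ≤ (2 * (1 + ‖s‖)) ^ (3 / 2 : ℝ) :=
            Real.rpow_le_rpow (by positivity) (by linarith) (by norm_num)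
        _ = 2 ^ (3 / 2 : ℝ) * (1 + ‖s‖) ^ (3 / 2 : ℝ) := Real.mul_rpow (by norm_num) (by linarith)
        _ ≤ 4 * (1 + ‖s‖) ^ (3 / 2 : ℝ) := by
          apply mul_le_mul_of_nonneg_right _ e0
          calc (2 : ℝ) ^ (3 / 2 : ℝ) ≤ 2 ^ (2 : ℝ) :=
                Real.rpow_le_rpow_of_exponent_le (by norm_num) (by norm_num)
            _ = 4 := by norm_num
    have := mul_le_mul_of_nonneg_left h3 hK
    linarith

theorem pow_absorb {ε : ℝ} (hε : 0 < ε) : ∃ M : ℝ, 0 ≤ M ∧ ∀ y : ℝ, 1 ≤ y → y ^ (3 / 2 : ℝ) ≤ ε * y ^ 2 + M := by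
  refine ⟨(1 / ε) ^ 4 + 1, by positivity, fun y hy => ?_⟩
  have hy0 : 0 < y := by linarith
  have e1 : y ^ (3 / 2 : ℝ) = y * Real.sqrt y := by
    rw [Real.sqrt_eq_rpow, show (3 / 2 : ℝ) = 1 + 1 / 2 by norm_num, Real.rpow_add hy0, Real.rpow_one]
  rw [e1]
  set r := Real.sqrt y with hr
  have hr1 : 1 ≤ r := by
    rw [hr]
    exact Real.one_le_sqrt.2 hy
  have hr2 : r ^ 2 = y := Real.sq_sqrt hy0.le
  have e2 : y * r = r ^ 3 := by rw [← hr2]; ring
  have e3 : y ^ 2 = r ^ 4 := by rw [← hr2]; ring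
  rw [e2, e3]
  rcases le_total (1 / ε) r with h | h
  · have : 1 ≤ ε * r := by
      rw [div_le_iff₀ hε] at h
      linarith
    have h3 : r ^ 3 ≤ ε * r * r ^ 3 := le_mul_of_one_le_left (by positivity) this
    have h4 : 0 ≤ (1 / ε) ^ 4 := by positivity
    nlinarith
  · have h3 : r ^ 3 ≤ (1 / ε) ^ 3 := pow_le_pow_left₀ (by linarith) h 3
    have h4 : 1 ≤ 1 / ε := hr1.trans h
    have h5 : (1 / ε) ^ 3 ≤ (1 / ε) ^ 4 := pow_le_pow_right₀ h4 (by norm_num)
    have h6 : 0 ≤ ε * r ^ 4 := by positivity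
    linarith

/-- slow growth -/
theorem X_slow : ∀ δ : ℝ, 0 < δ → ∃ K : ℝ, 0 < K ∧ ∀ z : ℂ, ‖xi z‖ ≤ K * Real.exp (δ * ‖z‖ ^ 2) := by
  intro δ hδ
  obtain ⟨K, hK, h⟩ := X_growth
  obtain ⟨M, hM, hM2⟩ := pow_absorb (ε := δ / (2 * (K + 1))) (by positivity)
  refine ⟨Real.exp (δ + K * M), Real.exp_pos _, fun z => ?_⟩
  rw [← Real.exp_add]
  refine (h z).trans (Real.exp_le_exp.2 ?_)
  have h1 := hM2 (1 + ‖z‖) (by linarith [norm_nonneg z])
  have h2 := mul_le_mul_of_nonneg_left h1 hK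
  refine h2.trans ?_
  have h3 : (1 + ‖z‖) ^ 2 ≤ 2 + 2 * ‖z‖ ^ 2 := by nlinarith [sq_nonneg (1 - ‖z‖)]
  have h4 : K * (δ / (2 * (K + 1))) ≤ δ / 2 := by
    rw [mul_div_assoc', div_le_div_iff₀ (by positivity) (by norm_num)]
    nlinarith
  have h5 : K * (δ / (2 * (K + 1)) * (1 + ‖z‖) ^ 2) ≤ δ / 2 * (2 + 2 * ‖z‖ ^ 2) := by
    rw [← mul_assoc]
    exact mul_le_mul h4 h3 (by positivity) (by positivity)
  rw [mul_add]
  linarith

/-- the logarithmic derivative of the factor in a strip -/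
theorem gm_ld_bound (c B : ℝ) (hc : 0 < c) : ∃ C : ℝ, 0 < C ∧ ∀ s : ℂ, c ≤ s.re → s.re ≤ B →
    ‖deriv gm s‖ ≤ C * Real.log (|s.im| + 16) * ‖gm s‖ := by
  obtain ⟨C, hC, hb⟩ := dg_bound (c / 2) (B / 2) (by positivity)
  refine ⟨1 / c + |Real.log Real.pi| / 2 + C, by positivity, fun s h1 h2 => ?_⟩
  have hs : 0 < s.re := by linarith
  have hre : (s / 2).re = s.re / 2 := by simp
  have him : (s / 2).im = s.im / 2 := by simp
  have hl := Pool.Agent.Q66.GB.one_le_log s.im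
  have h3 := hb (s / 2) (by rw [hre]; linarith) (by rw [hre]; linarith)
  have h4 : Real.log (|(s / 2).im| + 16) ≤ Real.log (|s.im| + 16) := by
    apply Real.log_le_log (by positivity)
    rw [him, abs_div, abs_two]
    linarith [abs_nonneg s.im]
  rw [(gm_hd hs).deriv, norm_mul, mul_comm]
  refine mul_le_mul_of_nonneg_right ?_ (norm_nonneg _)
  have h5 : ‖1 / s‖ ≤ 1 / c := by
    rw [norm_div, norm_one]
    apply one_div_le_one_div_of_le hc
    exact h1.trans (Complex.re_le_norm s)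
  have h6 : ‖dgr s‖ ≤ |Real.log Real.pi| / 2 + C * Real.log (|s.im| + 16) := by
    unfold dgr
    refine (norm_add_le _ _).trans ?_
    have a1 : ‖-(Real.log Real.pi : ℂ) / 2‖ = |Real.log Real.pi| / 2 := by
      rw [norm_div, norm_neg, Complex.norm_real, Real.norm_eq_abs, Complex.norm_ofNat]
    have a2 : ‖1 / 2 * logDeriv Gamma (s / 2)‖ ≤ C * Real.log (|s.im| + 16) := by
      rw [norm_mul, norm_div, norm_one, Complex.norm_ofNat]
      have := norm_nonneg (logDeriv Gamma (s / 2))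
      have h7 := mul_le_mul_of_nonneg_left h4 hC.le
      linarith
    rw [a1]
    linarith
  refine (norm_add_le _ _).trans ?_
  have h7 : 0 ≤ 1 / c + |Real.log Real.pi| / 2 := by positivity
  nlinarith

/-- upper bound with the exact constant for the real part -/
theorem gm_ld_re : ∃ C : ℝ, 0 < C ∧ ∀ s : ℂ, 1 / 2 ≤ s.re → s.re ≤ 4 →
    (deriv gm s / gm s).re ≤ Real.log (|s.im| + 16) / 2 + C := by
  obtain ⟨C1, hC1, hb1⟩ := gm_ld_bound (1 / 2) 4 (by norm_num)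
  obtain ⟨C2, hC2, hb2⟩ := H370.DL.logDeriv_Gammaℝ_bound
  have hlog17 : 0 ≤ Real.log 17 := Real.log_nonneg (by norm_num)
  refine ⟨C1 * Real.log 17 + 2 + C2 + 1, by positivity, fun s h1 h2 => ?_⟩
  have hs : 0 < s.re := by linarith
  have hl := Pool.Agent.Q66.GB.one_le_log s.im
  rcases le_total |s.im| 1 with h | h
  · have h3 := hb1 s h1 h2
    have h4 : (deriv gm s / gm s).re ≤ C1 * Real.log (|s.im| + 16) := by
      refine (Complex.re_le_norm _).trans ?_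
      rw [norm_div, div_le_iff₀ (norm_pos_iff.2 (gm_ne hs))]
      exact h3
    have h5 : Real.log (|s.im| + 16) ≤ Real.log 17 := Real.log_le_log (by positivity) (by linarith)
    have h6 := mul_le_mul_of_nonneg_left h5 hC1.le
    linarith
  · have h3 := hb2 s (by linarith) (by linarith) h
    have h4 : logDeriv Gammaℝ s = dgr s := by
      rw [logDeriv_apply, (gr_hd hs).deriv, mul_div_cancel_left₀ _ (gr_ne hs)]
    rw [h4] at h3
    rw [gm_ld hs, add_re]
    have h5 : (1 / s).re ≤ 2 := by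
      refine (Complex.re_le_norm _).trans ?_
      rw [norm_div, norm_one, div_le_iff₀ (norm_pos_iff.2 (by rintro rfl; simp at hs))]
      have := Complex.re_le_norm s
      linarith
    have h6 : (dgr s).re ≤ 1 / 2 * Real.log |s.im| + C2 := by
      have h7 := (Complex.re_le_norm _).trans h3
      have h8 : (dgr s - 1 / 2 * (Real.log |s.im| : ℂ)).re = (dgr s).re - 1 / 2 * Real.log |s.im| := by
        have e : (1 / 2 * (Real.log |s.im| : ℂ)) = ((1 / 2 * Real.log |s.im| : ℝ) : ℂ) := by push_cast; ring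
        rw [e, sub_re, ofReal_re]
      rw [h8] at h7
      linarith
    have h9 : Real.log |s.im| ≤ Real.log (|s.im| + 16) := Real.log_le_log (by linarith) (by linarith)
    have h10 : 0 ≤ C1 * Real.log 17 := by positivity
    linarith

/-- the logarithmic derivative of `ξ` -/
theorem X_ld {s : ℂ} (hs : 0 < s.re) (hG : G s ≠ 0) :
    deriv xi s / xi s = deriv gm s / gm s + deriv G s / G s := by
  have h1 : xi =ᶠ[𝓝 s] fun z => gm z * G z := by
    have ho : IsOpen {z : ℂ | 0 < z.re} := isOpen_lt continuous_const Complex.continuous_re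
    filter_upwards [ho.mem_nhds hs] with z hz
    exact X_eq hz
  rw [h1.deriv_eq, X_eq hs, deriv_fun_mul (gm_hd hs).differentiableAt (G_diff s)]
  have h2 := gm_ne hs
  field_simp

end Pool.Agent.H575.BD
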