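import Pool.Graph.R_pool_sql_team_seeded_3997aac3.Q286.BD.Fin
import Pool.Graph.R_seed8.H370R2.DirGood
import Pool.Graph.R_seed8.H370R2.Local
import Pool.Graph.R_seed8.H370R2.Dyadic

/-!
# Project BD (helper286), jobs C1 (b), (c): the number of the zeros of zeta (helper575)
-/

set_option autoImplicit false

namespace Pool.Agent.H575.BD

open Complex MeasureTheory Filter Topology Set
open Pool.Agent.Q286.BD (cl mz Zr Go cl_re cl_im norm_cl_sq mz_pos)
open H370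

theorem zeta_an {s : ℂ} (hs : s ≠ 1) : AnalyticAt ℂ riemannZeta s := by
  have hd : DifferentiableOn ℂ riemannZeta {(1 : ℂ)}ᶜ := fun s hs =>
    (differentiableAt_riemannZeta hs).differentiableWithinAt
  exact hd.analyticAt (isOpen_compl_singleton.mem_nhds hs)

theorem order_conj_le {s : ℂ} (hs : s ≠ 1) (n : ℕ) (h : (n : ℕ∞) ≤ analyticOrderAt riemannZeta s) :
    (n : ℕ∞) ≤ analyticOrderAt riemannZeta (starRingEnd ℂ s) := by
  have hs' : starRingEnd ℂ s ≠ 1 := by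
    intro h0
    apply hs
    have := congrArg (starRingEnd ℂ) h0
    simpa using this
  rw [natCast_le_analyticOrderAt (zeta_an hs)] at h
  rw [natCast_le_analyticOrderAt (zeta_an hs')]
  obtain ⟨g, hg, hgeq⟩ := h
  have hc : Tendsto (starRingEnd ℂ) (𝓝 (starRingEnd ℂ s)) (𝓝 s) := by
    have := (Complex.continuous_conj).tendsto (starRingEnd ℂ s)
    simpa using this
  refine ⟨fun z => starRingEnd ℂ (g (starRingEnd ℂ z)), ?_, ?_⟩
  · have hg1 : ∀ᶠ z in 𝓝 s, DifferentiableAt ℂ g z := by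
      filter_upwards [hg.eventually_analyticAt] with z hz using hz.differentiableAt
    rw [Complex.analyticAt_iff_eventually_differentiableAt]
    filter_upwards [hc.eventually hg1] with z hz
    exact differentiableAt_conj_conj_iff.2 hz
  · filter_upwards [hc.eventually hgeq] with z hz
    have h2 : riemannZeta z = starRingEnd ℂ (riemannZeta (starRingEnd ℂ z)) := by
      rw [riemannZeta_conj]; simp
    rw [h2, hz]
    simp

theorem order_conj {s : ℂ} (hs : s ≠ 1) :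
    analyticOrderAt riemannZeta (starRingEnd ℂ s) = analyticOrderAt riemannZeta s := by
  have hs' : starRingEnd ℂ s ≠ 1 := by
    intro h0
    apply hs
    have := congrArg (starRingEnd ℂ) h0
    simpa using this
  apply le_antisymm
  · refine ENat.forall_natCast_le_iff_le.1 fun n hn => ?_
    have := order_conj_le hs' n hn
    simpa using this
  · exact ENat.forall_natCast_le_iff_le.1 fun n hn => order_conj_le hs n hn

theorem mz_conj {s : ℂ} (hs : s ≠ 1) : mz (starRingEnd ℂ s) = mz s := by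
  unfold mz analyticOrderNatAt
  rw [order_conj hs]

/-- the nontrivial zeros with ordinate in `[a, b]` -/
def ZI (a b : ℝ) : Set ℂ := {s : ℂ | riemannZeta s = 0 ∧ 0 < s.re ∧ s.re < 1 ∧ a ≤ s.im ∧ s.im ≤ b}

theorem ZI_finite (a b : ℝ) : (ZI a b).Finite := by
  have hc : IsCompact (Icc (0 : ℝ) 1 ×ℂ Icc a b) := isCompact_Icc.reProdIm isCompact_Icc
  refine hc.inter_riemannZetaZeros_finite.subset ?_
  rintro s ⟨h0, h1, h2, h3, h4⟩
  exact ⟨⟨⟨h1.le, h2.le⟩, ⟨h3, h4⟩⟩, h0⟩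

theorem ne_one_of_re {s : ℂ} (h : s.re < 1) : s ≠ 1 := by
  rintro rfl
  simp at h

/-- the sum of the multiplicities in a unit interval -/
theorem local_mult : ∃ K : ℝ, 0 < K ∧ ∀ (T : ℝ) (S : Finset ℂ), (∀ s ∈ S, s ∈ ZI T (T + 1)) →
    ∑ s ∈ S, (mz s : ℝ) ≤ K * Real.log (|T| + 2) := by
  classical
  obtain ⟨C, hC, hcount⟩ := zcount good_zeta
  have hlog : ∀ x : ℝ, 2 ≤ x → 0 < Real.log x := fun x hx => Real.log_pos (by linarith)
  have hup : ∀ (T : ℝ) (S : Finset ℂ), 3 ≤ T → (∀ s ∈ S, s ∈ ZI T (T + 1)) →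
      ∑ s ∈ S, (mz s : ℝ) ≤ 2 * C * Real.log (|T| + 2) := by
    intro T S hT hS
    have h1 := hcount (T + 1 / 2) (by linarith)
    have hfin := zset_finite good_zeta (T + 1 / 2 - 1) (T + 1 / 2 + 1) (by linarith)
    have hNN : NN riemannZeta (T + 1 / 2 - 1) (T + 1 / 2 + 1) = ∑ s ∈ hfin.toFinset, mult riemannZeta s := by
      unfold NN
      exact finsum_mem_eq_finite_toFinset_sum _ hfin
    have hsub : S ⊆ hfin.toFinset := by
      intro s hs
      obtain ⟨a0, a1, a2, a3, a4⟩ := hS s hs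
      rw [Set.Finite.mem_toFinset]
      exact ⟨a1, a2, by linarith, by linarith, a0⟩
    have h2 : ∑ s ∈ S, (mz s : ℝ) ≤ NN riemannZeta (T + 1 / 2 - 1) (T + 1 / 2 + 1) := by
      rw [hNN]
      push_cast
      exact Finset.sum_le_sum_of_subset_of_nonneg hsub (fun _ _ _ => Nat.cast_nonneg _)
    refine h2.trans (h1.trans ?_)
    have h3 : Real.log (T + 1 / 2) ≤ Real.log (|T| + 2) := by
      apply Real.log_le_log (by linarith)
      have := le_abs_self T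
      linarith
    have h4 := hlog (|T| + 2) (by linarith [abs_nonneg T])
    nlinarith
  set Z0 := (ZI_finite (-6) 6).toFinset with hZ0
  set K0 : ℝ := ∑ s ∈ Z0, (mz s : ℝ) with hK0
  have hK00 : 0 ≤ K0 := Finset.sum_nonneg fun _ _ => Nat.cast_nonneg _
  have hl2 : 0 < Real.log 2 := Real.log_pos (by norm_num)
  refine ⟨2 * (2 * C) + K0 / Real.log 2, by positivity, fun T S hS => ?_⟩
  have hLT : Real.log 2 ≤ Real.log (|T| + 2) :=
    Real.log_le_log (by norm_num) (by linarith [abs_nonneg T])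
  have hK1 : K0 ≤ K0 / Real.log 2 * Real.log (|T| + 2) := by
    rw [div_mul_eq_mul_div, le_div_iff₀ hl2]
    exact mul_le_mul_of_nonneg_left hLT hK00
  have hL0 : 0 < Real.log (|T| + 2) := hl2.trans_le hLT
  rcases le_or_gt 3 T with h | h
  · have := hup T S h hS
    have h5 : 0 ≤ K0 / Real.log 2 * Real.log (|T| + 2) := by positivity
    have h6 : 0 ≤ 2 * C * Real.log (|T| + 2) := by positivity
    linarith
  rcases le_or_gt T (-4) with h' | h'
  · -- reflection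
    have hinj : Set.InjOn (starRingEnd ℂ) S := fun a _ b _ hab => (starRingEnd ℂ).injective hab
    have h1 := hup (-(T + 1)) (S.image (starRingEnd ℂ)) (by linarith) (by
      intro s hs
      obtain ⟨r, hr, rfl⟩ := Finset.mem_image.1 hs
      obtain ⟨a0, a1, a2, a3, a4⟩ := hS r hr
      refine ⟨by rw [riemannZeta_conj, a0, map_zero], by simpa using a1, by simpa using a2, ?_, ?_⟩
      · rw [conj_im]; linarith
      · rw [conj_im]; linarith)
    rw [Finset.sum_image hinj] at h1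
    have h2 : ∑ s ∈ S, (mz s : ℝ) = ∑ s ∈ S, (mz (starRingEnd ℂ s) : ℝ) := by
      refine Finset.sum_congr rfl fun s hs => ?_
      rw [mz_conj (ne_one_of_re (hS s hs).2.2.1)]
    rw [h2]
    refine h1.trans ?_
    have h3 : Real.log (|-(T + 1)| + 2) ≤ Real.log (|T| + 2) := by
      apply Real.log_le_log (by positivity)
      rw [abs_neg, abs_of_nonpos (by linarith : T + 1 ≤ 0), abs_of_nonpos (by linarith : T ≤ 0)]
      linarith
    have h5 : 0 ≤ K0 / Real.log 2 * Real.log (|T| + 2) := by positivity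
    have h6 : 0 ≤ 2 * C * Real.log (|T| + 2) := by positivity
    have h7 : 2 * C * Real.log (|-(T + 1)| + 2) ≤ 2 * C * Real.log (|T| + 2) :=
      mul_le_mul_of_nonneg_left h3 (by positivity)
    linarith
  · have hsub : S ⊆ Z0 := by
      intro s hs
      obtain ⟨a0, a1, a2, a3, a4⟩ := hS s hs
      rw [hZ0, Set.Finite.mem_toFinset]
      exact ⟨a0, a1, a2, by linarith, by linarith⟩
    have h1 : ∑ s ∈ S, (mz s : ℝ) ≤ K0 :=
      Finset.sum_le_sum_of_subset_of_nonneg hsub (fun _ _ _ => Nat.cast_nonneg _)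
    have h6 : 0 ≤ 2 * C * Real.log (|T| + 2) := by positivity
    linarith

theorem cl_inj : Function.Injective cl := by
  intro a b h
  have := congrArg Complex.im h
  rwa [cl_im, cl_im] at this

/-- **C1 (c).** -/
theorem cnt : Pool.Agent.Q286.BD.S_cnt := by
  classical
  obtain ⟨K, hK, hloc⟩ := local_mult
  refine ⟨K, fun T => ?_⟩
  have hfin : ({g : ℝ | riemannZeta (cl g) = 0} ∩ Icc T (T + 1)).Finite := by
    refine Set.Finite.of_finite_image ?_ (cl_inj.injOn)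
    refine (ZI_finite T (T + 1)).subset ?_
    rintro _ ⟨g, ⟨h0, h1, h2⟩, rfl⟩
    refine ⟨h0, ?_, ?_, ?_, ?_⟩
    · rw [cl_re]; norm_num
    · rw [cl_re]; norm_num
    · rw [cl_im]; exact h1
    · rw [cl_im]; exact h2
  refine ⟨hfin, ?_⟩
  rw [Set.ncard_eq_toFinset_card _ hfin]
  have h1 := hloc T (hfin.toFinset.image cl) (by
    intro s hs
    obtain ⟨g, hg, rfl⟩ := Finset.mem_image.1 hs
    rw [Set.Finite.mem_toFinset] at hg
    obtain ⟨h0, h1, h2⟩ := hg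
    refine ⟨h0, ?_, ?_, ?_, ?_⟩
    · rw [cl_re]; norm_num
    · rw [cl_re]; norm_num
    · rw [cl_im]; exact h1
    · rw [cl_im]; exact h2)
  rw [Finset.sum_image cl_inj.injOn] at h1
  refine le_trans ?_ h1
  rw [Finset.card_eq_sum_ones]
  push_cast
  refine Finset.sum_le_sum fun g hg => ?_
  rw [Set.Finite.mem_toFinset] at hg
  have := mz_pos ⟨cl g, hg.1, by rw [cl_re]; norm_num, by rw [cl_re]; norm_num⟩
  exact_mod_cast this

theorem maj_summable (A : ℝ) : Summable (fun k : ℤ => A * Real.log (|(k : ℝ)| + 2) ^ 2 / (1 + |(k : ℝ)|) ^ 2) := by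
  have hmaj : Summable (fun k : ℤ => |A| * 64 * (1 + |(k : ℝ)|) ^ (-(3 / 2) : ℝ)) := by
    apply Summable.mul_left
    have hn : Summable (fun n : ℕ => (1 + |((n : ℕ) : ℝ)|) ^ (-(3 / 2) : ℝ)) := by
      have h1 : Summable (fun n : ℕ => ((n : ℝ)) ^ (-(3 / 2) : ℝ)) :=
        Real.summable_nat_rpow.2 (by norm_num)
      have h2 := (summable_nat_add_iff 1).2 h1
      refine h2.congr fun n => ?_
      rw [abs_of_nonneg (Nat.cast_nonneg n)]
      push_cast
      rw [add_comm]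
    refine Summable.of_nat_of_neg ?_ ?_
    · simpa using hn
    · simpa using hn
  refine Summable.of_norm_bounded hmaj fun k => ?_
  set x : ℝ := |(k : ℝ)| with hx
  have hx0 : 0 ≤ x := abs_nonneg _
  have h1 : Real.log (x + 2) ≤ 4 * (x + 2) ^ (1 / 4 : ℝ) := by
    have := Real.log_le_rpow_div (x := x + 2) (by linarith) (ε := 1 / 4) (by norm_num)
    linarith
  have h0 : 0 ≤ Real.log (x + 2) := Real.log_nonneg (by linarith)
  have h2 : Real.log (x + 2) ^ 2 ≤ 16 * (x + 2) ^ (1 / 2 : ℝ) := by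
    calc Real.log (x + 2) ^ 2 ≤ (4 * (x + 2) ^ (1 / 4 : ℝ)) ^ 2 := pow_le_pow_left₀ h0 h1 2
      _ = 16 * (x + 2) ^ (1 / 2 : ℝ) := by
        rw [mul_pow, ← Real.rpow_natCast ((x + 2) ^ (1 / 4 : ℝ)) 2, ← Real.rpow_mul (by linarith)]
        norm_num
  have h3 : (x + 2) ^ (1 / 2 : ℝ) ≤ 2 * (1 + x) ^ (1 / 2 : ℝ) := by
    calc (x + 2) ^ (1 / 2 : ℝ) ≤ (2 * (1 + x)) ^ (1 / 2 : ℝ) :=
          Real.rpow_le_rpow (by linarith) (by linarith) (by norm_num)
      _ = 2 ^ (1 / 2 : ℝ) * (1 + x) ^ (1 / 2 : ℝ) := Real.mul_rpow (by norm_num) (by linarith)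
      _ ≤ 2 * (1 + x) ^ (1 / 2 : ℝ) := by
        apply mul_le_mul_of_nonneg_right _ (by positivity)
        calc (2 : ℝ) ^ (1 / 2 : ℝ) ≤ 2 ^ (1 : ℝ) := Real.rpow_le_rpow_of_exponent_le (by norm_num) (by norm_num)
          _ = 2 := Real.rpow_one 2
  have h4 : (1 + x) ^ (1 / 2 : ℝ) / (1 + x) ^ 2 = (1 + x) ^ (-(3 / 2) : ℝ) := by
    rw [show (-(3 / 2) : ℝ) = 1 / 2 - 2 by norm_num, Real.rpow_sub (by linarith), Real.rpow_two]
  rw [Real.norm_eq_abs, abs_div, abs_mul, abs_of_nonneg (sq_nonneg (Real.log (x + 2))),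
    abs_of_nonneg (sq_nonneg (1 + x))]
  calc |A| * Real.log (x + 2) ^ 2 / (1 + x) ^ 2 ≤ |A| * (32 * (1 + x) ^ (1 / 2 : ℝ)) / (1 + x) ^ 2 := by
        gcongr
        linarith
    _ = |A| * 32 * ((1 + x) ^ (1 / 2 : ℝ) / (1 + x) ^ 2) := by ring
    _ ≤ |A| * 64 * (1 + x) ^ (-(3 / 2) : ℝ) := by
        rw [h4]
        gcongr
        norm_num

/-- **C1 (b).** -/
theorem sum2 : Pool.Agent.Q286.BD.S_sum2 := by
  classical
  obtain ⟨K, hK, hloc⟩ := local_mult
  unfold Pool.Agent.Q286.BD.S_sum2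
  -- the zeros near the real axis
  set Z0 := (ZI_finite (-2) 2).toFinset with hZ0
  set M0 : ℝ := ∑ s ∈ Z0, 1 / ‖s‖ ^ 2 with hM0
  have hM00 : 0 ≤ M0 := Finset.sum_nonneg fun _ _ => by positivity
  set M : ℝ := 9 + 4 * M0 with hM
  have hinv : ∀ ρ : Zr, 1 / ‖(ρ : ℂ)‖ ^ 2 ≤ M / (1 + |((⌊(ρ : ℂ).im⌋ : ℤ) : ℝ)|) ^ 2 := by
    intro ρ
    set k : ℤ := ⌊(ρ : ℂ).im⌋ with hk
    have hk1 : (k : ℝ) ≤ (ρ : ℂ).im := Int.floor_le _
    have hk2 : (ρ : ℂ).im < k + 1 := Int.lt_floor_add_one _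
    rcases le_or_gt 2 |(k : ℝ)| with h | h
    · have h1 : |(k : ℝ)| - 1 ≤ |(ρ : ℂ).im| := by
        rcases abs_cases (k : ℝ) with ⟨e, h2⟩ | ⟨e, h2⟩ <;>
          rcases abs_cases (ρ : ℂ).im with ⟨e', h3⟩ | ⟨e', h3⟩ <;> rw [e, e'] <;> rw [e] at h <;> linarith
      have h2 : |(k : ℝ)| / 2 ≤ ‖(ρ : ℂ)‖ := by
        have := Complex.abs_im_le_norm (ρ : ℂ)
        linarith
      have h3 : (1 + |(k : ℝ)|) / 3 ≤ ‖(ρ : ℂ)‖ := by linarith
      have h4 : 0 < (1 + |(k : ℝ)|) / 3 := by positivity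
      calc 1 / ‖(ρ : ℂ)‖ ^ 2 ≤ 1 / ((1 + |(k : ℝ)|) / 3) ^ 2 := by gcongr
        _ = 9 / (1 + |(k : ℝ)|) ^ 2 := by field_simp; norm_num
        _ ≤ M / (1 + |(k : ℝ)|) ^ 2 := by gcongr; linarith
    · have hk3 : |k| < 2 := by
        have : (|k| : ℝ) < 2 := h
        exact_mod_cast this
      have hk4 := abs_lt.1 hk3
      have hkl : (-1 : ℝ) ≤ k := by
        have : -1 ≤ k := by omega
        exact_mod_cast this
      have hku : (k : ℝ) ≤ 1 := by
        have : k ≤ 1 := by omega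
        exact_mod_cast this
      have hmem : (ρ : ℂ) ∈ Z0 := by
        rw [hZ0, Set.Finite.mem_toFinset]
        exact ⟨ρ.2.1, ρ.2.2.1, ρ.2.2.2, by linarith, by linarith⟩
      have h1 : 1 / ‖(ρ : ℂ)‖ ^ 2 ≤ M0 :=
        Finset.single_le_sum (f := fun s : ℂ => 1 / ‖s‖ ^ 2) (fun _ _ => by positivity) hmem
      refine h1.trans ?_
      have hk5 : |(k : ℝ)| ≤ 1 := abs_le.2 ⟨hkl, hku⟩
      rw [le_div_iff₀ (by positivity)]
      have h5 : (1 + |(k : ℝ)|) ^ 2 ≤ 4 := by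
        have := abs_nonneg (k : ℝ)
        nlinarith
      nlinarith
  -- the majorant
  have hB := maj_summable (K ^ 2 * M)
  refine summable_of_sum_le (c := ∑' k : ℤ, K ^ 2 * M * Real.log (|(k : ℝ)| + 2) ^ 2 / (1 + |(k : ℝ)|) ^ 2)
    (fun _ => by positivity) fun S => ?_
  set fl : Zr → ℤ := fun ρ => ⌊(ρ : ℂ).im⌋ with hfl
  rw [← Finset.sum_fiberwise_of_maps_to (s := S) (t := S.image fl) (g := fl)
    (fun ρ hρ => Finset.mem_image_of_mem fl hρ)]
  refine le_trans (Finset.sum_le_sum fun k _ => ?_) (hB.sum_le_tsum _ (fun k _ => by positivity))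
  -- one block
  set Sk := S.filter (fun ρ => fl ρ = k) with hSk
  have hmemk : ∀ ρ ∈ Sk, fl ρ = k := fun ρ hρ => (Finset.mem_filter.1 hρ).2
  have h1 : ∑ ρ ∈ Sk, (mz ρ : ℝ) ≤ K * Real.log (|(k : ℝ)| + 2) := by
    have h2 := hloc k (Sk.map (Function.Embedding.subtype _)) (by
      intro s hs
      rw [Finset.mem_map] at hs
      obtain ⟨ρ, hρ, rfl⟩ := hs
      have h3 := hmemk ρ hρ
      refine ⟨ρ.2.1, ρ.2.2.1, ρ.2.2.2, ?_, ?_⟩
      · rw [← h3]; exact Int.floor_le _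
      · rw [← h3]; exact (Int.lt_floor_add_one _).le)
    rw [Finset.sum_map] at h2
    exact h2
  have hm0 : ∀ ρ ∈ Sk, (0 : ℝ) ≤ mz ρ := fun _ _ => Nat.cast_nonneg _
  have h3 : ∑ ρ ∈ Sk, (mz ρ : ℝ) ^ 2 ≤ (K * Real.log (|(k : ℝ)| + 2)) ^ 2 := by
    calc ∑ ρ ∈ Sk, (mz ρ : ℝ) ^ 2 ≤ (∑ ρ ∈ Sk, (mz ρ : ℝ)) ^ 2 := Finset.sum_sq_le_sq_sum_of_nonneg hm0
      _ ≤ _ := pow_le_pow_left₀ (Finset.sum_nonneg hm0) h1 2
  calc ∑ ρ ∈ Sk, (mz ρ : ℝ) ^ 2 / ‖(ρ : ℂ)‖ ^ 2 ≤ ∑ ρ ∈ Sk, (mz ρ : ℝ) ^ 2 * (M / (1 + |(k : ℝ)|) ^ 2) := by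
        refine Finset.sum_le_sum fun ρ hρ => ?_
        have h4 := hinv ρ
        have h5 := hmemk ρ hρ
        simp only [hfl] at h5
        rw [h5] at h4
        rw [div_eq_mul_one_div]
        exact mul_le_mul_of_nonneg_left h4 (by positivity)
    _ = (∑ ρ ∈ Sk, (mz ρ : ℝ) ^ 2) * (M / (1 + |(k : ℝ)|) ^ 2) := by rw [Finset.sum_mul]
    _ ≤ (K * Real.log (|(k : ℝ)| + 2)) ^ 2 * (M / (1 + |(k : ℝ)|) ^ 2) := by
        apply mul_le_mul_of_nonneg_right h3 (by positivity)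
    _ = K ^ 2 * M * Real.log (|(k : ℝ)| + 2) ^ 2 / (1 + |(k : ℝ)|) ^ 2 := by ring

end Pool.Agent.H575.BD
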