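import Pool.Agent.H575.BD.Pos
import Pool.Graph.R_seed8.Y21.FW.Zeros
import Pool.Graph.R_pool_sql_team_seeded_2aa45f1a.Q5.SZ.Had
import Pool.Graph.R_pool_sql_team_seeded_3997aac3.Q286.BD.Fin

/-!
# Project BD (helper286), job C1 (a): the sum over the zeros (helper575)
-/

set_option autoImplicit false

namespace Pool.Agent.H575.BD

open Complex MeasureTheory Filter Topology Set
open scoped ComplexConjugate
open Pool.Agent.Q286.BD (cl mz Zr Go cl_re cl_im norm_cl_sq mz_pos)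
open Pool.Agent.Q162.BD (G G_ne G_one G_diff G_ne_zero G_ev)
open Pool.Agent.Y922.AP (xi)
open Pool.Agent.Y907.AP (xi_diff xi_sub xi_conj t_SQ)
open Pool.Agent.Q5.SZ (tz tz_zero zeros_sum)
open Pool.Agent.Q5.BP (mu)

theorem xi_zero_re (hRH : RiemannHypothesis) {s : ℂ} (h : xi s = 0) : s.re = 1 / 2 := by
  rcases lt_trichotomy s.re (1 / 2) with h1 | h1 | h1
  · exfalso
    rw [← xi_sub] at h
    exact xi_ne hRH (by rw [sub_re, one_re]; linarith) h
  · exact h1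
  · exact absurd h (xi_ne hRH h1)

theorem zeta_zero_of_xi {s : ℂ} (h0 : 0 < s.re) (h1 : s.re < 1) (h : xi s = 0) : riemannZeta s = 0 := by
  have hn : s ≠ 1 := by
    rintro rfl
    simp at h1
  rw [X_eq h0, G_ne hn] at h
  rcases mul_eq_zero.1 h with h2 | h2
  · exact absurd h2 (gm_ne h0)
  rcases mul_eq_zero.1 h2 with h3 | h3
  · exact absurd h3 (sub_ne_zero.2 hn)
  · exact h3

/-- the orders of `ξ` and `ζ` in the critical strip -/
theorem order_xi {s : ℂ} (h0 : 0 < s.re) (h1 : s.re < 1) : analyticOrderAt xi s = analyticOrderAt riemannZeta s := by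
  have hn : s ≠ 1 := by
    rintro rfl
    simp at h1
  have ho : IsOpen {z : ℂ | 0 < z.re} := isOpen_lt continuous_const Complex.continuous_re
  have e1 : xi =ᶠ[𝓝 s] gm * ((fun z => z - 1) * riemannZeta) := by
    filter_upwards [ho.mem_nhds h0, isOpen_ne.mem_nhds hn] with z hz hz1
    rw [X_eq hz, G_ne hz1]
    rfl
  have hgm : AnalyticAt ℂ gm s := by
    have : DifferentiableOn ℂ gm {z : ℂ | 0 < z.re} := fun z hz => (gm_hd hz).differentiableAt.differentiableWithinAt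
    exact this.analyticAt (ho.mem_nhds h0)
  have hz : AnalyticAt ℂ riemannZeta s := by
    have hd : DifferentiableOn ℂ riemannZeta {(1 : ℂ)}ᶜ := fun s hs =>
      (differentiableAt_riemannZeta hs).differentiableWithinAt
    exact hd.analyticAt (isOpen_compl_singleton.mem_nhds hn)
  have hl : AnalyticAt ℂ (fun z : ℂ => z - 1) s := by fun_prop
  rw [analyticOrderAt_congr e1, analyticOrderAt_mul hgm (hl.mul hz), analyticOrderAt_mul hl hz,
    hgm.analyticOrderAt_eq_zero.2 (gm_ne h0), hl.analyticOrderAt_eq_zero.2 (sub_ne_zero.2 hn), zero_add, zero_add]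

theorem xi_hd_one : HasDerivAt xi (completedRiemannZeta₀ 1 / 2) 1 := by
  have h1 : HasDerivAt (fun s : ℂ => s * (s - 1)) (1 * (1 - 1) + 1 * 1) 1 :=
    (hasDerivAt_id (1 : ℂ)).mul ((hasDerivAt_id (1 : ℂ)).sub_const 1)
  have h2 : HasDerivAt completedRiemannZeta₀ (deriv completedRiemannZeta₀ 1) 1 :=
    (differentiable_completedZeta₀ 1).hasDerivAt
  have h3 := ((h1.mul h2).add_const 1).div_const 2
  refine h3.congr_deriv ?_
  ring

theorem xi_one : xi 1 = 1 / 2 := by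
  unfold xi
  norm_num

/-- the function with the zeros `± i √(1/4 + γ²)` -/
theorem exists_g (hRH : RiemannHypothesis) : ∃ g : ℂ → ℂ, Differentiable ℂ g ∧ g 0 ≠ 0 ∧
    (∃ K : ℝ, 0 ≤ K ∧ ∀ w, ‖g w‖ ≤ Real.exp (K * (1 + ‖w‖) ^ (3 / 2 : ℝ))) ∧ (∀ w, g w = 0 → w.re = 0) ∧
    deriv (fun z => deriv g z / g z) 0 = 2 * completedRiemannZeta₀ 1 ∧
    (∀ (w v : ℂ), v ^ 2 = 1 / 4 + w ^ 2 → g w = xi (1 / 2 + v)) ∧
    (∀ (w v : ℂ), w ≠ 0 → v ≠ 0 → v ^ 2 = 1 / 4 + w ^ 2 → analyticOrderAt g w = analyticOrderAt xi (1 / 2 + v)) := by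
  obtain ⟨F, hF, hFx⟩ := t_SQ
  obtain ⟨K, hK, hgr⟩ := X_growth
  have hval : ∀ (w v : ℂ), v ^ 2 = 1 / 4 + w ^ 2 → F (1 / 4 + w ^ 2) = xi (1 / 2 + v) := by
    intro w v h
    rw [← hFx, ← h]
    congr 1
    ring
  have hroot : ∀ w : ℂ, ∃ v : ℂ, v ^ 2 = 1 / 4 + w ^ 2 := fun w =>
    IsAlgClosed.exists_pow_nat_eq _ (by norm_num)
  have hg0 : F (1 / 4 + 0 ^ 2) = 1 / 2 := by
    rw [hval 0 (1 / 2) (by norm_num)]
    rw [show (1 / 2 + 1 / 2 : ℂ) = 1 by norm_num, xi_one]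
  refine ⟨fun w => F (1 / 4 + w ^ 2), ?_, ?_, ⟨4 * K, by linarith, fun w => ?_⟩, fun w hw => ?_, ?_, hval, ?_⟩
  · exact hF.comp (by fun_prop)
  · show F (1 / 4 + 0 ^ 2) ≠ 0
    rw [hg0]
    norm_num
  · obtain ⟨v, hv⟩ := hroot w
    show ‖F (1 / 4 + w ^ 2)‖ ≤ _
    rw [hval w v hv]
    refine (hgr _).trans (Real.exp_le_exp.2 ?_)
    have hn := norm_nonneg w
    have h1 : ‖v‖ ^ 2 ≤ (1 / 2 + ‖w‖) ^ 2 := by
      rw [← norm_pow, hv]
      refine (norm_add_le _ _).trans ?_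
      rw [norm_pow, norm_div, norm_one, Complex.norm_ofNat]
      nlinarith
    have h2 : ‖v‖ ≤ 1 / 2 + ‖w‖ := le_of_sq_le_sq h1 (by positivity)
    have h3 : ‖1 / 2 + v‖ ≤ 1 + ‖w‖ := by
      refine (norm_add_le _ _).trans ?_
      rw [norm_div, norm_one, Complex.norm_ofNat]
      linarith
    have e0 : 0 ≤ (1 + ‖w‖) ^ (3 / 2 : ℝ) := by positivity
    have h4 : (1 + ‖1 / 2 + v‖) ^ (3 / 2 : ℝ) ≤ 4 * (1 + ‖w‖) ^ (3 / 2 : ℝ) := by
      calc (1 + ‖1 / 2 + v‖) ^ (3 / 2 : ℝ) ≤ (2 * (1 + ‖w‖)) ^ (3 / 2 : ℝ) :=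
            Real.rpow_le_rpow (by positivity) (by linarith) (by norm_num)
        _ = 2 ^ (3 / 2 : ℝ) * (1 + ‖w‖) ^ (3 / 2 : ℝ) := Real.mul_rpow (by norm_num) (by linarith)
        _ ≤ 4 * (1 + ‖w‖) ^ (3 / 2 : ℝ) := by
          apply mul_le_mul_of_nonneg_right _ e0
          calc (2 : ℝ) ^ (3 / 2 : ℝ) ≤ 2 ^ (2 : ℝ) :=
                Real.rpow_le_rpow_of_exponent_le (by norm_num) (by norm_num)
            _ = 4 := by norm_num
    have := mul_le_mul_of_nonneg_left h4 hK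
    linarith
  · obtain ⟨v, hv⟩ := hroot w
    have h1 : F (1 / 4 + w ^ 2) = 0 := hw
    rw [hval w v hv] at h1
    have h2 := xi_zero_re hRH h1
    have h3 : v.re = 0 := by
      rw [add_re] at h2
      have : ((1 : ℂ) / 2).re = 1 / 2 := by simp
      rw [this] at h2
      linarith
    -- `w ^ 2 = -(v.im ^ 2) - 1/4`
    have h4 := congrArg Complex.re hv
    have h5 := congrArg Complex.im hv
    rw [sq, sq, mul_re, add_re, mul_re, h3] at h4
    rw [sq, sq, mul_im, add_im, mul_im, h3] at h5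
    have e1 : ((1 : ℂ) / 4).re = 1 / 4 := by simp
    have e2 : ((1 : ℂ) / 4).im = 0 := by simp
    rw [e1] at h4
    rw [e2] at h5
    have h6 : w.re * w.im = 0 := by linarith
    rcases mul_eq_zero.1 h6 with h7 | h7
    · exact h7
    · rw [h7] at h4
      nlinarith [sq_nonneg w.re, sq_nonneg v.im]
  · -- the derivative
    have hd1 : ∀ w : ℂ, HasDerivAt (fun w => F (1 / 4 + w ^ 2)) (deriv F (1 / 4 + w ^ 2) * (2 * w)) w := by
      intro w
      have a1 : HasDerivAt (fun w : ℂ => 1 / 4 + w ^ 2) (2 * w) w := by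
        have := (hasDerivAt_pow 2 w).const_add (1 / 4 : ℂ)
        simpa using this
      exact (hF _).hasDerivAt.comp w a1
    have hq : DifferentiableAt ℂ (fun w : ℂ => deriv F (1 / 4 + w ^ 2) / F (1 / 4 + w ^ 2)) 0 := by
      refine DifferentiableAt.div ?_ ?_ ?_
      · have h1 : Differentiable ℂ (deriv F) := hF.deriv
        exact (h1 _).comp (0 : ℂ) (by fun_prop)
      · exact (hF _).comp (0 : ℂ) (by fun_prop)
      · rw [hg0]; norm_num
    have e1 : (fun z => deriv (fun w => F (1 / 4 + w ^ 2)) z / F (1 / 4 + z ^ 2)) =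
        fun z => (2 * z) * (deriv F (1 / 4 + z ^ 2) / F (1 / 4 + z ^ 2)) := by
      funext z
      rw [(hd1 z).deriv]
      ring
    show deriv (fun z => deriv (fun w => F (1 / 4 + w ^ 2)) z / F (1 / 4 + z ^ 2)) 0 = _
    rw [e1]
    have h2 : HasDerivAt (fun z : ℂ => 2 * z) 2 0 := by simpa using (hasDerivAt_id (0 : ℂ)).const_mul 2
    have h3 := h2.mul hq.hasDerivAt
    have h4 : deriv (fun z : ℂ => (2 * z) * (deriv F (1 / 4 + z ^ 2) / F (1 / 4 + z ^ 2))) 0 = _ := h3.deriv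
    rw [h4, hg0]
    have h5 : HasDerivAt xi (deriv F ((1 - 1 / 2) ^ 2) * (2 * (1 - 1 / 2))) 1 := by
      have a1 : HasDerivAt (fun s : ℂ => (s - 1 / 2) ^ 2) (2 * (1 - 1 / 2)) 1 := by
        have := ((hasDerivAt_id (1 : ℂ)).sub_const (1 / 2)).fun_pow 2
        simpa using this
      have a2 := (hF ((1 - 1 / 2) ^ 2)).hasDerivAt.comp (1 : ℂ) a1
      exact a2.congr_of_eventuallyEq (Eventually.of_forall fun s => (hFx s).symm)
    have h6 := h5.unique xi_hd_one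
    have h7 : deriv F (1 / 4 + 0 ^ 2) = completedRiemannZeta₀ 1 / 2 := by
      rw [← h6]
      rw [show (1 / 4 + 0 ^ 2 : ℂ) = (1 - 1 / 2) ^ 2 by norm_num]
      norm_num
    rw [h7]
    ring
  · intro w v hw hv h
    have a1 : AnalyticAt ℂ (fun w : ℂ => 1 / 4 + w ^ 2) w := by fun_prop
    have a2 : deriv (fun w : ℂ => 1 / 4 + w ^ 2) w ≠ 0 := by
      have : HasDerivAt (fun w : ℂ => 1 / 4 + w ^ 2) (2 * w) w := by
        have := (hasDerivAt_pow 2 w).const_add (1 / 4 : ℂ)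
        simpa using this
      rw [this.deriv]
      exact mul_ne_zero two_ne_zero hw
    have a3 := analyticOrderAt_comp_of_deriv_ne_zero (f := F) a1 a2
    have b1 : AnalyticAt ℂ (fun s : ℂ => (s - 1 / 2) ^ 2) (1 / 2 + v) := by fun_prop
    have b2 : deriv (fun s : ℂ => (s - 1 / 2) ^ 2) (1 / 2 + v) ≠ 0 := by
      have : HasDerivAt (fun s : ℂ => (s - 1 / 2) ^ 2) (2 * (1 / 2 + v - 1 / 2)) (1 / 2 + v) := by
        have := ((hasDerivAt_id (1 / 2 + v)).sub_const (1 / 2)).fun_pow 2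
        simpa using this
      rw [this.deriv]
      refine mul_ne_zero two_ne_zero ?_
      rw [add_sub_cancel_left]
      exact hv
    have b3 := analyticOrderAt_comp_of_deriv_ne_zero (f := F) b1 b2
    have e1 : F ∘ (fun w : ℂ => 1 / 4 + w ^ 2) = fun w => F (1 / 4 + w ^ 2) := rfl
    have e2 : F ∘ (fun s : ℂ => (s - 1 / 2) ^ 2) = xi := funext hFx
    rw [e1] at a3
    rw [e2] at b3
    rw [a3, b3]
    congr 1
    rw [← h]
    ring

/-- **C1 (a).** -/
theorem const : Pool.Agent.Q286.BD.S_const := by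
  intro hRH
  obtain ⟨g, hgd, hg0, ⟨K, hK, hgr⟩, hgz, hgD, hgv, hgo⟩ := exists_g hRH
  obtain ⟨c, hc, hsum⟩ := zeros_sum hgd hg0 hK hgr hgz
  -- the zeros
  have hre : ∀ ρ : Zr, (ρ : ℂ).re = 1 / 2 := by
    intro ρ
    refine hRH ρ ρ.2.1 ?_ ?_
    · rintro ⟨n, hn⟩
      have := congrArg Complex.re hn
      have h2 : (-2 * ((n : ℂ) + 1)).re = -2 * ((n : ℝ) + 1) := by simp
      rw [h2] at this
      have h3 := ρ.2.2.1
      have : (0 : ℝ) ≤ n := Nat.cast_nonneg n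
      linarith
    · intro h1
      have := ρ.2.2.2
      rw [h1] at this
      simp at this
  have him : ∀ ρ : Zr, (ρ : ℂ).im ≠ 0 := by
    intro ρ h
    have h1 : (ρ : ℂ) = (((1 / 2 : ℝ)) : ℂ) := by
      apply Complex.ext
      · rw [hre ρ, ofReal_re]
      · rw [h, ofReal_im]
    have h2 := ρ.2.1
    rw [h1] at h2
    exact Pool.Agent.Y21.FW.real_ne (by norm_num) (by norm_num) h2
  set φ : Zr → ℝ := fun ρ => if 0 < (ρ : ℂ).im then Real.sqrt (1 / 4 + (ρ : ℂ).im ^ 2)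
    else -Real.sqrt (1 / 4 + (ρ : ℂ).im ^ 2) with hφ
  have hφ2 : ∀ ρ, φ ρ ^ 2 = 1 / 4 + (ρ : ℂ).im ^ 2 := by
    intro ρ
    have h0 : 0 ≤ 1 / 4 + (ρ : ℂ).im ^ 2 := by positivity
    rw [hφ]
    simp only
    split_ifs
    · exact Real.sq_sqrt h0
    · rw [neg_sq]; exact Real.sq_sqrt h0
  have hφp : ∀ ρ : Zr, 0 < (ρ : ℂ).im → 0 < φ ρ := by
    intro ρ h
    rw [hφ]
    simp only
    rw [if_pos h]
    positivity
  have hφn : ∀ ρ : Zr, ¬ 0 < (ρ : ℂ).im → φ ρ < 0 := by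
    intro ρ h
    rw [hφ]
    simp only
    rw [if_neg h]
    have : 0 < Real.sqrt (1 / 4 + (ρ : ℂ).im ^ 2) := by positivity
    linarith
  have hinj : Function.Injective φ := by
    intro ρ ρ' h
    have h1 := hφ2 ρ
    rw [h, hφ2 ρ'] at h1
    have h2 : (ρ : ℂ).im ^ 2 = (ρ' : ℂ).im ^ 2 := by linarith
    have h3 : (ρ : ℂ).im = (ρ' : ℂ).im := by
      rcases sq_eq_sq_iff_eq_or_eq_neg.1 h2 with h4 | h4
      · exact h4
      · exfalso
        by_cases h5 : 0 < (ρ : ℂ).im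
        · have a := hφp ρ h5
          have b := hφn ρ' (by linarith)
          rw [h] at a
          linarith
        · have a := hφn ρ h5
          have h6 := him ρ
          have h7 : (ρ : ℂ).im < 0 := lt_of_le_of_ne (not_lt.1 h5) h6
          have b := hφp ρ' (by linarith)
          rw [h] at a
          linarith
    apply Subtype.ext
    apply Complex.ext
    · rw [hre, hre]
    · exact h3
  have hsupp : ∀ t : ℝ, t ∉ Set.range φ → tz g t = 0 := by
    intro t ht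
    by_contra hne
    have h1 : g (t * I) = 0 := by
      by_contra h
      exact hne (tz_zero hgd h)
    obtain ⟨v, hv⟩ : ∃ v : ℂ, v ^ 2 = 1 / 4 + ((t : ℂ) * I) ^ 2 := IsAlgClosed.exists_pow_nat_eq _ (by norm_num)
    have h2 := h1
    rw [hgv _ v hv] at h2
    have h3 := xi_zero_re hRH h2
    have h4 : v.re = 0 := by
      rw [add_re] at h3
      have : ((1 : ℂ) / 2).re = 1 / 2 := by simp
      rw [this] at h3
      linarith
    have h5 : t ^ 2 = 1 / 4 + v.im ^ 2 := by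
      have h6 := congrArg Complex.re hv
      rw [mul_pow, I_sq, sq, mul_re, h4] at h6
      have e1 : (1 / 4 + (t : ℂ) ^ 2 * -1).re = 1 / 4 - t ^ 2 := by
        have : (1 / 4 + (t : ℂ) ^ 2 * -1) = ((1 / 4 - t ^ 2 : ℝ) : ℂ) := by push_cast; ring
        rw [this, ofReal_re]
      rw [e1] at h6
      linarith
    have ht0 : t ≠ 0 := by
      rintro rfl
      nlinarith [sq_nonneg v.im]
    -- the zero with the sign of `t`
    set γ : ℝ := if 0 < t then |v.im| else -|v.im| with hγ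
    have hγ2 : γ ^ 2 = v.im ^ 2 := by
      rw [hγ]
      split_ifs
      · exact sq_abs _
      · rw [neg_sq]; exact sq_abs _
    have hx0 : xi (cl γ) = 0 := by
      have e1 : cl γ = 1 / 2 + (γ : ℂ) * I := by unfold Pool.Agent.Q286.BD.cl; ring
      rw [e1, ← hgv ((t : ℂ) * I) ((γ : ℂ) * I) ?_, h1]
      rw [mul_pow, mul_pow, I_sq]
      have e2 : (γ : ℂ) ^ 2 = ((v.im ^ 2 : ℝ) : ℂ) := by rw [← hγ2]; push_cast; ring
      have e3 : (t : ℂ) ^ 2 = ((1 / 4 + v.im ^ 2 : ℝ) : ℂ) := by rw [← h5]; push_cast; ring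
      rw [e2, e3]
      push_cast
      ring
    have hz0 : riemannZeta (cl γ) = 0 :=
      zeta_zero_of_xi (by rw [cl_re]; norm_num) (by rw [cl_re]; norm_num) hx0
    set ρ : Zr := ⟨cl γ, hz0, by rw [cl_re]; norm_num, by rw [cl_re]; norm_num⟩ with hρ
    have hρim : (ρ : ℂ).im = γ := cl_im γ
    have hγ0 : γ ≠ 0 := by
      have := him ρ
      rwa [hρim] at this
    apply ht
    refine ⟨ρ, ?_⟩
    have hsq : Real.sqrt (1 / 4 + γ ^ 2) = |t| := by
      rw [hγ2, ← h5, Real.sqrt_sq_eq_abs]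
    rw [hφ]
    simp only
    rw [hρim, hsq]
    rcases lt_or_gt_of_ne ht0 with h6 | h6
    · have h7 : γ = -|v.im| := by rw [hγ, if_neg (by linarith)]
      have h8 : ¬ 0 < γ := by rw [h7]; linarith [abs_nonneg v.im]
      rw [if_neg h8, abs_of_neg h6, neg_neg]
    · have h7 : γ = |v.im| := by rw [hγ, if_pos h6]
      have h8 : 0 < γ := lt_of_le_of_ne (by rw [h7]; exact abs_nonneg _) hγ0.symm
      rw [if_pos h8, abs_of_pos h6]
  have hsum2 := (hinj.hasSum_iff hsupp).2 hsum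
  have hterm : ∀ ρ : Zr, (tz g ∘ φ) ρ = (mz ρ : ℝ) / ‖(ρ : ℂ)‖ ^ 2 := by
    intro ρ
    have e1 : ‖(ρ : ℂ)‖ ^ 2 = 1 / 4 + (ρ : ℂ).im ^ 2 := by
      rw [← Complex.normSq_eq_norm_sq, Complex.normSq_apply, hre ρ]
      ring
    have e2 : (ρ : ℂ) = 1 / 2 + ((ρ : ℂ).im : ℂ) * I := by
      apply Complex.ext
      · simp [hre ρ]
      · simp
    have e3 : analyticOrderAt g ((φ ρ : ℂ) * I) = analyticOrderAt xi (1 / 2 + ((ρ : ℂ).im : ℂ) * I) := by
      apply hgo
      · have : φ ρ ≠ 0 := by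
          intro h
          have := hφ2 ρ
          rw [h] at this
          nlinarith [sq_nonneg (ρ : ℂ).im]
        exact mul_ne_zero (by exact_mod_cast this) I_ne_zero
      · exact mul_ne_zero (by exact_mod_cast him ρ) I_ne_zero
      · rw [mul_pow, mul_pow, I_sq]
        have e4 : ((φ ρ : ℝ) : ℂ) ^ 2 = ((1 / 4 + (ρ : ℂ).im ^ 2 : ℝ) : ℂ) := by rw [← hφ2 ρ]; push_cast; ring
        rw [e4]
        push_cast
        ring
    show tz g (φ ρ) = _
    unfold Pool.Agent.Q5.SZ.tz Pool.Agent.Q5.BP.mu Pool.Agent.Q286.BD.mz analyticOrderNatAt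
    rw [e3, ← e2, order_xi ρ.2.2.1 ρ.2.2.2, hφ2 ρ, e1]
  have hsum3 : HasSum (fun ρ : Zr => (mz ρ : ℝ) / ‖(ρ : ℂ)‖ ^ 2) c := by
    convert hsum2 using 1
    exact (funext hterm).symm
  rw [hgD] at hc
  have h9 : (c : ℂ) = ((2 + Real.eulerMascheroniConstant - Real.log (4 * Real.pi) : ℝ) : ℂ) := by
    rw [← hc, completedRiemannZeta₀_one]
    have e5 : Complex.log (4 * Real.pi) = ((Real.log (4 * Real.pi) : ℝ) : ℂ) := by
      rw [Complex.ofReal_log (by positivity)]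
      push_cast
      rfl
    rw [e5]
    push_cast
    ring
  have h10 : c = 2 + Real.eulerMascheroniConstant - Real.log (4 * Real.pi) := by exact_mod_cast h9
  rw [← h10]
  exact hsum3.tsum_eq

end Pool.Agent.H575.BD
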