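import Pool.Agent.H575.BD.Pos
import Pool.Graph.R_pool_sql_team_seeded_3997aac3.Q286.GB.HH

/-!
# Project BD (helper286), job Z3: Harnack's inequality near the critical line (helper575)
After `Pool/Agent/Q286/GB/HH.lean`.
-/

set_option autoImplicit false

namespace Pool.Agent.H575.BD

open Complex MeasureTheory Filter Topology Set
open scoped ComplexConjugate
open Pool.Agent.Q286.BD (cl Lam ML)
open Pool.Agent.Q162.BD (G G_ne G_one G_diff G_ne_zero logDeriv_G zeta_ne)
open Pool.Agent.Y922.AP (xi)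
open Pool.Agent.Y907.AP (xi_diff xi_sub xi_conj)
open Pool.Agent.Q286.GB.HHAux

/-- **Z3.** -/
theorem hh : Pool.Agent.Q286.BD.S_H := by
  intro hRH
  obtain ⟨P1, P2, P3⟩ := pos hRH
  obtain ⟨C1, hC1, hFB⟩ := fb hRH
  obtain ⟨C3, hC3, hγ⟩ := gm_ld_bound (1 / 4) 1 (by norm_num)
  have h1 := Pool.Agent.Q190.GB.t_CAR
  refine ⟨4 * (100 * (C1 + C3)) + 2, by positivity, ?_⟩
  intro t d hd hη2 hZ w hw1 hw2
  set Λt := Lam t with hΛ
  have hΛ1 : 1 ≤ Λt := Lam_ge t
  -- the norm of `X` near the line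
  have hXd : ∀ s : ℂ, DifferentiableAt ℂ xi s := fun s => xi_diff s
  have hsym : ∀ x y : ℝ, ‖xi (1 / 2 + x + y * I)‖ = ‖xi (1 / 2 + |x| + y * I)‖ := by
    intro x y
    rcases abs_cases x with ⟨h, _⟩ | ⟨h, _⟩
    · rw [h]
    · rw [h]
      have := P2 (-x) y
      push_cast at this ⊢
      rw [← this]
      congr 2; ring
  have hld : ∀ u v : ℝ, 0 < v → v ≤ 3 → ‖deriv xi (1 / 2 + v + u * I)‖ ≤ C1 * Lam u / v * ‖xi (1 / 2 + v + u * I)‖ := by
    intro u v hv hv3
    have hne : xi (1 / 2 + v + u * I) ≠ 0 := (P1 _ (by simp; linarith)).1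
    have := hFB u v hv hv3
    rw [norm_div, div_le_iff₀ (norm_pos_iff.2 hne)] at this
    exact this
  -- vertical comparison at `1/2 + d`
  have hvert : ∀ y : ℝ, |y - t| ≤ d → ‖xi (1 / 2 + d + y * I)‖ ≤ Real.exp (2 * C1 * Λt) * ‖xi (1 / 2 + d + t * I)‖ := by
    intro y hy
    have hseg := seg (f := xi) (a := 1 / 2 + d + t * I) (b := 1 / 2 + d + y * I) (K := C1 * (Λt + 1) / d)
      (fun τ _ _ => hXd _)
      (fun τ h0 h1 => by
        have e : (1 / 2 + d + t * I : ℂ) + τ * ((1 / 2 + d + y * I) - (1 / 2 + d + t * I)) =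
            1 / 2 + d + ((t + τ * (y - t) : ℝ) : ℂ) * I := by push_cast; ring
        rw [e]
        refine (hld _ d hd (by linarith)).trans ?_
        apply mul_le_mul_of_nonneg_right _ (norm_nonneg _)
        apply div_le_div_of_nonneg_right _ hd.le
        apply mul_le_mul_of_nonneg_left _ hC1.le
        apply Lam_near
        have : |t + τ * (y - t) - t| = τ * |y - t| := by
          rw [add_sub_cancel_left, abs_mul, abs_of_nonneg h0]
        rw [this]
        calc τ * |y - t| ≤ 1 * d := mul_le_mul h1 hy (abs_nonneg _) zero_le_one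
          _ ≤ 1 := by linarith)
    refine hseg.trans ?_
    apply mul_le_mul_of_nonneg_right _ (norm_nonneg _)
    apply Real.exp_le_exp.2
    have e : ‖((1 / 2 + d + y * I : ℂ) - (1 / 2 + d + t * I))‖ = |y - t| := by
      have : ((1 / 2 + d + y * I : ℂ) - (1 / 2 + d + t * I)) = ((y - t : ℝ) : ℂ) * I := by push_cast; ring
      rw [this, norm_mul, Complex.norm_I, mul_one, Complex.norm_real, Real.norm_eq_abs]
    rw [e]
    calc C1 * (Λt + 1) / d * |y - t| ≤ C1 * (Λt + 1) / d * d := mul_le_mul_of_nonneg_left hy (by positivity)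
      _ = C1 * (Λt + 1) := by field_simp
      _ ≤ 2 * C1 * Λt := by nlinarith
  -- horizontal comparison
  have hhor : ‖xi (1 / 2 + d + t * I)‖ ≤ Real.exp (C1 * Λt) * ‖xi (1 / 2 + (d / 2 : ℝ) + t * I)‖ := by
    have hseg := seg (f := xi) (a := 1 / 2 + (d / 2 : ℝ) + t * I) (b := 1 / 2 + d + t * I) (K := C1 * Λt / (d / 2))
      (fun τ _ _ => hXd _)
      (fun τ h0 h1 => by
        have e : (1 / 2 + (d / 2 : ℝ) + t * I : ℂ) + τ * ((1 / 2 + d + t * I) - (1 / 2 + (d / 2 : ℝ) + t * I)) =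
            1 / 2 + ((d / 2 + τ * (d / 2) : ℝ) : ℂ) + t * I := by push_cast; ring
        rw [e]
        have hv : d / 2 ≤ d / 2 + τ * (d / 2) := by nlinarith
        refine (hld t (d / 2 + τ * (d / 2)) (by linarith) (by nlinarith)).trans ?_
        apply mul_le_mul_of_nonneg_right _ (norm_nonneg _)
        apply div_le_div_of_nonneg_left (by positivity) (by linarith) hv)
    refine hseg.trans (le_of_eq ?_)
    congr 2
    have e : ‖((1 / 2 + d + t * I : ℂ) - (1 / 2 + (d / 2 : ℝ) + t * I))‖ = d / 2 := by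
      have : ((1 / 2 + d + t * I : ℂ) - (1 / 2 + (d / 2 : ℝ) + t * I)) = ((d / 2 : ℝ) : ℂ) := by push_cast; ring
      rw [this, Complex.norm_real, Real.norm_of_nonneg (by linarith)]
    rw [e]
    field_simp
  -- no zeros in the disc
  have hcoord : ∀ z : ℂ, z = 1 / 2 + ((z.re - 1 / 2 : ℝ) : ℂ) + (z.im : ℝ) * I := by
    intro z
    apply Complex.ext <;> simp
  have hcl : cl t = 1 / 2 + ((0 : ℝ) : ℂ) + t * I := by
    unfold Pool.Agent.Q286.BD.cl; simp
  have hclre : (cl t).re = 1 / 2 := by unfold Pool.Agent.Q286.BD.cl; simp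
  have hclim : (cl t).im = t := by unfold Pool.Agent.Q286.BD.cl; simp
  have hball : ∀ z ∈ Metric.ball (cl t) d, |z.re - 1 / 2| < d ∧ |z.im - t| < d := by
    intro z hz
    rw [mem_ball_iff_norm] at hz
    have h1 := Complex.abs_re_le_norm (z - cl t)
    have h2 := Complex.abs_im_le_norm (z - cl t)
    rw [Complex.sub_re, hclre] at h1
    rw [Complex.sub_im, hclim] at h2
    exact ⟨lt_of_le_of_lt h1 hz, lt_of_le_of_lt h2 hz⟩
  have hne : ∀ z ∈ Metric.ball (cl t) d, xi z ≠ 0 := by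
    intro z hz h0
    obtain ⟨hz1, hz2⟩ := hball z hz
    by_cases hre : z.re - 1 / 2 = 0
    · have hz' : z = cl z.im := by
        unfold Pool.Agent.Q286.BD.cl
        apply Complex.ext
        · simp; linarith
        · simp
      have hzr : 0 < z.re := by linarith
      have hγne := gm_ne hzr
      have he := X_eq hzr
      rw [h0] at he
      have hL : G z = 0 := by
        rcases mul_eq_zero.1 he.symm with h | h
        · exact absurd h hγne
        · exact h
      have hz1' : z ≠ 1 := by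
        intro h
        rw [h, one_re] at hre
        norm_num at hre
      rw [G_ne hz1'] at hL
      have hL2 : riemannZeta z = 0 := by
        rcases mul_eq_zero.1 hL with h | h
        · exact absurd h (sub_ne_zero.2 hz1')
        · exact h
      rw [hz'] at hL2
      have := hZ z.im hL2
      linarith
    · have h3 : ‖xi z‖ ≠ 0 := by
        rw [hcoord z, hsym]
        exact norm_ne_zero_iff.2 (P1 _ (by
          have h5 := abs_pos.2 hre
          have e : ((1 : ℂ) / 2 + ((|z.re - 1 / 2| : ℝ) : ℂ) + ((z.im : ℝ) : ℂ) * I).re = 1 / 2 + |z.re - 1 / 2| := by simp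
          rw [e]; linarith)).1
      exact h3 (by rw [h0, norm_zero])
  obtain ⟨ℓ, hℓd, hℓ⟩ := logb hd (fun z _ => (hXd z).differentiableWithinAt) hne
  have hℓre : ∀ z ∈ Metric.ball (cl t) d, (ℓ z).re = Real.log ‖xi z‖ := by
    intro z hz
    rw [hℓ z hz, Complex.norm_exp, Real.log_exp]
  set A := Real.log ‖xi (1 / 2 + d + t * I)‖ with hA
  have hXpos : 0 < ‖xi (1 / 2 + d + t * I)‖ := norm_pos_iff.2 (P1 _ (by simp; linarith)).1
  set F : ℂ → ℂ := fun z => ((A + 2 * C1 * Λt : ℝ) : ℂ) - ℓ z with hF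
  have hFd : DifferentiableOn ℂ F (Metric.ball (cl t) d) := (differentiableOn_const _).sub hℓd
  have hFre : ∀ z ∈ Metric.ball (cl t) d, (F z).re = A + 2 * C1 * Λt - Real.log ‖xi z‖ := by
    intro z hz
    rw [hF]
    simp only [sub_re, ofReal_re]
    rw [hℓre z hz]
  have hFnn : ∀ z ∈ Metric.ball (cl t) d, 0 ≤ (F z).re := by
    intro z hz
    rw [hFre z hz]
    obtain ⟨hz1, hz2⟩ := hball z hz
    have hXz : ‖xi z‖ ≤ Real.exp (2 * C1 * Λt) * ‖xi (1 / 2 + d + t * I)‖ := by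
      refine le_trans ?_ (hvert z.im hz2.le)
      rw [hcoord z, hsym]
      have := P3 |z.re - 1 / 2| d z.im (abs_nonneg _) hz1.le
      simpa using this
    have hXz0 : 0 < ‖xi z‖ := norm_pos_iff.2 (hne z hz)
    have := Real.log_le_log hXz0 hXz
    rw [Real.log_mul (Real.exp_pos _).ne' hXpos.ne', Real.log_exp] at this
    linarith
  have hcar := h1 F (cl t) d hd hFd hFnn
  -- the centre
  have hz1 : cl t + ((d / 2 : ℝ) : ℂ) ∈ Metric.ball (cl t) d := by
    rw [mem_ball_iff_norm, add_sub_cancel_left, Complex.norm_real, Real.norm_of_nonneg (by linarith)]; linarith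
  have hH := (hcar _ hz1).2
  rw [add_sub_cancel_left, Complex.norm_real, Real.norm_of_nonneg (by linarith : (0 : ℝ) ≤ d / 2)] at hH
  have hFz1 : (F (cl t + ((d / 2 : ℝ) : ℂ))).re ≤ 3 * C1 * Λt := by
    rw [hFre _ hz1]
    have e : cl t + ((d / 2 : ℝ) : ℂ) = 1 / 2 + (d / 2 : ℝ) + t * I := by
      unfold Pool.Agent.Q286.BD.cl; ring
    rw [e]
    have hX2pos : 0 < ‖xi (1 / 2 + (d / 2 : ℝ) + t * I)‖ := norm_pos_iff.2 (P1 _ (by simp; linarith)).1
    have := Real.log_le_log hXpos hhor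
    rw [Real.log_mul (Real.exp_pos _).ne' hX2pos.ne', Real.log_exp] at this
    linarith
  have hFc : (F (cl t)).re ≤ 9 * C1 * Λt := by
    have h4 : (d / 2) * (F (cl t)).re ≤ (d / 2) * (3 * (F (cl t + ((d / 2 : ℝ) : ℂ))).re) := by linarith
    have h5 := le_of_mul_le_mul_left h4 (by linarith)
    linarith
  -- the point
  have hwn : ‖w‖ ≤ 3 * d / 5 := by
    have hsq : ‖w‖ ^ 2 ≤ (3 * d / 5) ^ 2 := by
      rw [← Complex.normSq_eq_norm_sq, Complex.normSq_apply]
      have h5 : w.re * w.re ≤ (d / 4) ^ 2 := by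
        rw [← sq, ← sq_abs]; exact pow_le_pow_left₀ (abs_nonneg _) hw1 2
      have h6 : w.im * w.im ≤ (d / 2) ^ 2 := by
        rw [← sq, ← sq_abs]; exact pow_le_pow_left₀ (abs_nonneg _) hw2 2
      nlinarith
    exact le_of_sq_le_sq hsq (by positivity)
  have hzw : cl t + w ∈ Metric.ball (cl t) d := by
    rw [mem_ball_iff_norm, add_sub_cancel_left]; linarith
  have hFw : (F (cl t + w)).re ≤ 36 * C1 * Λt := by
    have h5 := (hcar _ hzw).1
    rw [add_sub_cancel_left] at h5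
    have hFc0 : 0 ≤ (F (cl t)).re := hFnn _ (Metric.mem_ball_self hd)
    have h6 : 2 * ‖w‖ / (d - ‖w‖) ≤ 3 := by
      rw [div_le_iff₀ (by linarith)]; linarith
    have h7 : ‖F (cl t + w) - F (cl t)‖ ≤ 3 * (F (cl t)).re := h5.trans (mul_le_mul_of_nonneg_right h6 hFc0)
    have h8 := (Complex.re_le_norm (F (cl t + w) - F (cl t))).trans h7
    rw [Complex.sub_re] at h8
    linarith
  have hXt : ‖xi (cl t)‖ ≤ Real.exp (36 * C1 * Λt) * ‖xi (cl t + w)‖ := by
    have h5 : ‖xi (cl t)‖ ≤ ‖xi (1 / 2 + d + t * I)‖ := by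
      rw [hcl]; exact P3 0 d t le_rfl hd.le
    refine h5.trans ?_
    have hXw0 : 0 < ‖xi (cl t + w)‖ := norm_pos_iff.2 (hne _ hzw)
    rw [hFre _ hzw] at hFw
    have h6 : A ≤ 36 * C1 * Λt + Real.log ‖xi (cl t + w)‖ := by
      have : 0 ≤ 2 * C1 * Λt := by positivity
      linarith
    calc ‖xi (1 / 2 + d + t * I)‖ = Real.exp A := by rw [hA, Real.exp_log hXpos]
      _ ≤ Real.exp (36 * C1 * Λt + Real.log ‖xi (cl t + w)‖) := Real.exp_le_exp.2 h6
      _ = _ := by rw [Real.exp_add, Real.exp_log hXw0]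
  -- the gamma factor
  have hγne : ∀ τ : ℝ, 0 ≤ τ → τ ≤ 1 → 1 / 2 - d / 4 ≤ (cl t + τ * ((cl t + w) - cl t)).re ∧ (cl t + τ * ((cl t + w) - cl t)).re ≤ 1 ∧
      |(cl t + τ * ((cl t + w) - cl t)).im - t| ≤ 1 := by
    intro τ h0 h1
    rw [add_sub_cancel_left]
    have e1 : (cl t + τ * w).re = 1 / 2 + τ * w.re := by
      rw [add_re, hclre]; simp
    have e2 : (cl t + τ * w).im = t + τ * w.im := by
      rw [add_im, hclim]; simp
    rw [e1, e2]
    have g1 : |τ * w.re| ≤ d / 4 := by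
      rw [abs_mul, abs_of_nonneg h0]
      calc τ * |w.re| ≤ 1 * (d / 4) := mul_le_mul h1 hw1 (abs_nonneg _) zero_le_one
        _ = d / 4 := one_mul _
    have g2 : |τ * w.im| ≤ d / 2 := by
      rw [abs_mul, abs_of_nonneg h0]
      calc τ * |w.im| ≤ 1 * (d / 2) := mul_le_mul h1 hw2 (abs_nonneg _) zero_le_one
        _ = d / 2 := one_mul _
    have g3 := abs_le.1 g1
    refine ⟨by linarith, by linarith, ?_⟩
    rw [add_sub_cancel_left]; linarith
  have hγr : ‖gm (cl t + w)‖ ≤ Real.exp (2 * C3 * Λt) * ‖gm (cl t)‖ := by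
    have hseg := seg (f := gm) (a := cl t) (b := cl t + w) (K := C3 * (Λt + 1))
      (fun τ h0 h1 => (gm_hd (by have := (hγne τ h0 h1).1; linarith)).differentiableAt)
      (fun τ h0 h1 => by
        obtain ⟨g1, g2, g3⟩ := hγne τ h0 h1
        refine (hγ _ (by linarith) g2).trans ?_
        apply mul_le_mul_of_nonneg_right _ (norm_nonneg _)
        apply mul_le_mul_of_nonneg_left _ hC3.le
        exact Lam_near t _ g3)
    refine hseg.trans ?_
    apply mul_le_mul_of_nonneg_right _ (norm_nonneg _)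
    apply Real.exp_le_exp.2
    rw [add_sub_cancel_left]
    calc C3 * (Λt + 1) * ‖w‖ ≤ C3 * (Λt + 1) * 1 := mul_le_mul_of_nonneg_left (by linarith) (by positivity)
      _ ≤ 2 * C3 * Λt := by nlinarith
  have e1 := X_eq (s := cl t) (by rw [hclre]; linarith)
  have hre2 : 0 < (cl t + w).re := by
    have := (hγne 1 zero_le_one le_rfl).1
    simp only [ofReal_one, one_mul, add_sub_cancel] at this
    linarith
  have e2 := X_eq hre2
  have hγ0 : 0 < ‖gm (cl t)‖ := norm_pos_iff.2 (gm_ne (by rw [hclre]; linarith))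
  have hfin : ‖gm (cl t)‖ * ‖G (cl t)‖ ≤ ‖gm (cl t)‖ * (Real.exp (100 * (C1 + C3) * Λt) * ‖G (cl t + w)‖) := by
    calc ‖gm (cl t)‖ * ‖G (cl t)‖ = ‖xi (cl t)‖ := by rw [e1, norm_mul]
      _ ≤ Real.exp (36 * C1 * Λt) * ‖xi (cl t + w)‖ := hXt
      _ = Real.exp (36 * C1 * Λt) * (‖gm (cl t + w)‖ * ‖G (cl t + w)‖) := by rw [e2, norm_mul]
      _ ≤ Real.exp (36 * C1 * Λt) * ((Real.exp (2 * C3 * Λt) * ‖gm (cl t)‖) * ‖G (cl t + w)‖) := by
          apply mul_le_mul_of_nonneg_left _ (Real.exp_pos _).le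
          exact mul_le_mul_of_nonneg_right hγr (norm_nonneg _)
      _ = ‖gm (cl t)‖ * (Real.exp (36 * C1 * Λt + 2 * C3 * Λt) * ‖G (cl t + w)‖) := by
          rw [Real.exp_add]; ring
      _ ≤ _ := by
          apply mul_le_mul_of_nonneg_left _ hγ0.le
          apply mul_le_mul_of_nonneg_right _ (norm_nonneg _)
          apply Real.exp_le_exp.2
          nlinarith [mul_pos hC1 (by linarith : (0 : ℝ) < Λt), mul_pos hC3 (by linarith : (0 : ℝ) < Λt)]
  have hfin2 := le_of_mul_le_mul_left hfin hγ0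
  -- from `G` to zeta
  have n1 : cl t ≠ 1 := by
    intro h
    rw [h, one_re] at hclre
    norm_num at hclre
  have hre3 : (cl t + w).re ≤ 3 / 4 := by
    have := (abs_le.1 hw1).2
    rw [add_re, hclre]
    linarith
  have n2 : cl t + w ≠ 1 := by
    intro h
    rw [h, one_re] at hre3
    norm_num at hre3
  rw [G_ne n1, G_ne n2, norm_mul, norm_mul] at hfin2
  have hc1 : 1 / 2 ≤ ‖cl t - 1‖ := by
    have := Complex.abs_re_le_norm (cl t - 1)
    rw [sub_re, hclre, one_re] at this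
    norm_num at this
    linarith
  have hc2 : ‖cl t + w - 1‖ ≤ 3 * ‖cl t - 1‖ := by
    have e : cl t + w - 1 = (cl t - 1) + w := by ring
    rw [e]
    refine (norm_add_le _ _).trans ?_
    linarith
  have hx : (1 : ℝ) ≤ |t| + 2 := by linarith [abs_nonneg t]
  have hE := exp_Lam t (100 * (C1 + C3)) (by positivity)
  have h3 : (3 : ℝ) ≤ (|t| + 2) ^ (2 : ℝ) := by
    rw [Real.rpow_two]
    nlinarith [abs_nonneg t]
  have h4 : ‖cl t - 1‖ * ‖riemannZeta (cl t)‖ ≤
      ‖cl t - 1‖ * ((|t| + 2) ^ (4 * (100 * (C1 + C3)) + 2) * ‖riemannZeta (cl t + w)‖) := by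
    refine hfin2.trans ?_
    rw [Real.rpow_add (by linarith)]
    calc Real.exp (100 * (C1 + C3) * Λt) * (‖cl t + w - 1‖ * ‖riemannZeta (cl t + w)‖)
        ≤ (|t| + 2) ^ (4 * (100 * (C1 + C3))) * ((3 * ‖cl t - 1‖) * ‖riemannZeta (cl t + w)‖) := by
          gcongr
      _ = 3 * ((|t| + 2) ^ (4 * (100 * (C1 + C3))) * (‖cl t - 1‖ * ‖riemannZeta (cl t + w)‖)) := by ring
      _ ≤ (|t| + 2) ^ (2 : ℝ) * ((|t| + 2) ^ (4 * (100 * (C1 + C3))) * (‖cl t - 1‖ * ‖riemannZeta (cl t + w)‖)) := by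
          gcongr
      _ = _ := by ring
  exact le_of_mul_le_mul_left h4 (by linarith)

end Pool.Agent.H575.BD
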