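import Pool.Agent.H575.BD.Far
import Pool.Graph.R_pool_sql_team_seeded_3997aac3.Q211.GB.Ld

/-!
# Project BD (helper286), job Z1: the logarithmic derivative of zeta, monotonicity (helper575)
After `Pool/Agent/Q211/GB/Ld.lean`, `Pool/Agent/Q252/GB/Mono.lean`.
-/

set_option autoImplicit false

namespace Pool.Agent.H575.BD

open Complex MeasureTheory Filter Topology Set
open scoped ComplexConjugate
open Pool.Agent.Q286.BD (cl Lam ML)
open Pool.Agent.Q162.BD (G G_ne G_one G_diff G_ne_zero logDeriv_G zeta_ne)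
open Pool.Agent.Y922.AP (xi)
open Pool.Agent.Y907.AP (xi_diff xi_sub xi_conj)
open Pool.Agent.Q261.BD (Lam_gt Lam_pos logLam_gt ML_ge ML_pos ML_le_Lam ML_mul Lam_neg ML_neg Lam_mono ML_mono
  ML_of_log Lam_shift ML_shift)
open Pool.Agent.Q211.GB (car_deriv)

theorem hre (z : ℂ) : (1 / 2 + z).re = 1 / 2 + z.re := by simp
theorem him (z : ℂ) : (1 / 2 + z).im = z.im := by simp
theorem hzre (v u : ℝ) : ((v : ℂ) + u * I).re = v := by simp
theorem hzim (v u : ℝ) : ((v : ℂ) + u * I).im = u := by simp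
theorem epos (v u : ℝ) : (1 / 2 + v + u * I : ℂ) = 1 / 2 + (v + u * I) := by ring
theorem enorm3 (z : ℂ) (hz : 0 < z.re) : 3 / 2 ≤ ‖3 / 2 + z‖ := by
  have h13 := Complex.re_le_norm (3 / 2 + z)
  have h14 : (3 / 2 + z).re = 3 / 2 + z.re := by simp
  rw [h14] at h13
  linarith

/-- Z1 (a) for `G` -/
theorem ldG (hRH : RiemannHypothesis) : ∃ C : ℝ, 0 < C ∧ ∀ u v : ℝ, 0 < v → v ≤ 1 →
    ‖deriv G (1 / 2 + v + u * I) / G (1 / 2 + v + u * I)‖ ≤ C * (Lam u + ML u / v) := by
  obtain ⟨g, hg1, hg2, hB⟩ := exists_lg hRH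
  obtain ⟨C, hC, hfar⟩ := lg_bound hRH hg1 hB
  obtain ⟨hpos, -, -⟩ := pos hRH
  obtain ⟨Cγ, hCγ, hγ⟩ := gm_ld_bound (1 / 2) 3 (by norm_num)
  -- the first case
  have hA : ∀ u v : ℝ, 2 / Real.log (Lam u) ≤ v → v ≤ 2 →
      ‖deriv G (1 / 2 + v + u * I) / G (1 / 2 + v + u * I)‖ ≤ (64 * C + 2) * ML u / v := by
    intro u v hv hv2
    have hLu : 0 < Real.log (Lam u) := by linarith [logLam_gt u]
    have hv0 : 0 < v := lt_of_lt_of_le (by positivity) hv
    have hball : ∀ z ∈ Metric.ball ((v : ℂ) + u * I) (v / 4), 3 / 4 * v ≤ z.re ∧ |z.im - u| ≤ 1 := by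
      intro z hz
      rw [mem_ball_iff_norm] at hz
      have h5 := (Complex.abs_re_le_norm _).trans hz.le
      have h6 := (Complex.abs_im_le_norm _).trans hz.le
      rw [sub_re, hzre, abs_le] at h5
      rw [sub_im, hzim] at h6
      exact ⟨by linarith [h5.1], by linarith⟩
    have h5 := car_deriv Pool.Agent.Q190.GB.t_CAR (g := g) (c := (v : ℂ) + u * I) (R := v / 4)
      (M := 2 * C * ML u) (by positivity)
      (fun z hz => (hg1 z (by linarith [(hball z hz).1])).differentiableAt) (fun z hz => by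
        obtain ⟨b1, b2⟩ := hball z hz
        have hz0 : 0 < z.re := by linarith
        have h6 : Real.log (Lam u) ≤ 3 / 2 * Real.log (Lam z.im) := by
          have h7 : Lam u ≤ Lam z.im * (1 + 1 / 16) := by
            have h8 := Lam_shift (t := u) (u := z.im) (by rwa [abs_sub_comm])
            have h9 := Lam_gt z.im
            linarith
          have h8 := Real.log_le_log (Lam_pos u) h7
          rw [Real.log_mul (Lam_pos _).ne' (by norm_num)] at h8
          have h9 := Real.log_le_sub_one_of_pos (x := 1 + 1 / 16) (by norm_num)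
          have h10 := logLam_gt z.im
          linarith
        have hLz : 0 < Real.log (Lam z.im) := by linarith [logLam_gt z.im]
        have h7 : 1 / Real.log (Lam z.im) ≤ z.re := by
          rw [div_le_iff₀ hLz]
          rw [div_le_iff₀ hLu] at hv
          have h8 : v * Real.log (Lam u) ≤ v * (3 / 2 * Real.log (Lam z.im)) :=
            mul_le_mul_of_nonneg_left h6 hv0.le
          have h9 : 3 / 4 * v * Real.log (Lam z.im) ≤ z.re * Real.log (Lam z.im) :=
            mul_le_mul_of_nonneg_right b1 hLz.le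
          nlinarith
        have h8 := hfar z.im z.re h7
        rw [Complex.re_add_im] at h8
        refine (Complex.abs_re_le_norm _).trans (h8.trans ?_)
        have h9 := ML_shift b2
        nlinarith)
    rw [(hg1 _ (by rw [hzre]; exact hv0)).deriv] at h5
    rw [epos]
    have h6 : deriv G (1 / 2 + (v + u * I)) / G (1 / 2 + (v + u * I)) =
        (deriv G (1 / 2 + (v + u * I)) / G (1 / 2 + (v + u * I)) - 1 / (3 / 2 + (v + u * I))) +
          1 / (3 / 2 + (v + u * I)) := by ring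
    rw [h6]
    refine (norm_add_le _ _).trans ?_
    have h7 : ‖1 / (3 / 2 + ((v : ℂ) + u * I))‖ ≤ 1 := by
      have h8 := enorm3 ((v : ℂ) + u * I) (by rw [hzre]; exact hv0)
      rw [norm_div, norm_one, div_le_one (by linarith)]
      linarith
    have h9 : 1 ≤ 2 * (ML u / v) := by
      rw [mul_div_assoc', le_div_iff₀ hv0]
      linarith [ML_ge u]
    have h10 : 8 * (2 * C * ML u) / (v / 4) = 64 * C * (ML u / v) := by
      field_simp
      ring
    rw [h10] at h5
    have h11 : (64 * C + 2) * ML u / v = 64 * C * (ML u / v) + 2 * (ML u / v) := by ring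
    rw [h11]
    linarith
  -- the gamma factor
  have hG : ∀ u v : ℝ, 0 < v → v ≤ 2 →
      ‖deriv gm (1 / 2 + v + u * I) / gm (1 / 2 + v + u * I)‖ ≤ Cγ * Lam u := by
    intro u v hv hv2
    have h5 := hγ (1 / 2 + v + u * I) (by rw [epos, hre, hzre]; linarith) (by rw [epos, hre, hzre]; linarith)
    have h6 := gm_ne (s := 1 / 2 + v + u * I) (by rw [epos, hre, hzre]; linarith)
    have h7 : (1 / 2 + v + u * I : ℂ).im = u := by rw [epos, him, hzim]
    rw [h7] at h5
    rw [norm_div, div_le_iff₀ (norm_pos_iff.2 h6)]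
    exact h5
  refine ⟨(64 * C + 2) + 5 * (Cγ + (32 * C + 1)) + Cγ, by positivity, fun u v hv hv1 => ?_⟩
  have hLu : 0 < Real.log (Lam u) := by linarith [logLam_gt u]
  have hM := ML_pos u
  have hL := Lam_pos u
  have hMv : 0 < ML u / v := by positivity
  rcases le_total (2 / Real.log (Lam u)) v with hc | hc
  · refine (hA u v hc (by linarith)).trans ?_
    rw [mul_div_assoc]
    have h5 : 0 < Cγ * Lam u := by positivity
    have h6 : 0 < C * Lam u := by positivity
    have h7 : 0 < C * (ML u / v) := by positivity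
    have h8 : 0 < Cγ * (ML u / v) := by positivity
    linarith
  · set v1 : ℝ := 2 / Real.log (Lam u) with hv1d
    have hv10 : 0 < v1 := by positivity
    have hv12 : v1 ≤ 2 := by
      rw [hv1d, div_le_iff₀ hLu]
      linarith [logLam_gt u]
    set F : ℂ → ℂ := fun s => deriv xi s / xi s with hF
    set c : ℂ := 1 / 2 + (v1 : ℝ) + u * I with hcd
    have hcre : c.re = 1 / 2 + v1 := by rw [hcd, epos, hre, hzre]
    have hXL : ∀ w : ℝ, 0 < w → F (1 / 2 + w + u * I) =
        deriv gm (1 / 2 + w + u * I) / gm (1 / 2 + w + u * I) +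
        deriv G (1 / 2 + w + u * I) / G (1 / 2 + w + u * I) := by
      intro w hw
      have h5 : (1 / 2 : ℝ) < (1 / 2 + w + u * I : ℂ).re := by rw [epos, hre, hzre]; linarith
      exact X_ld (by linarith) (G_ne_zero hRH h5)
    have hFc : ‖F c‖ ≤ (Cγ + (32 * C + 1)) * Lam u := by
      rw [hcd, hXL v1 hv10]
      refine (norm_add_le _ _).trans ?_
      have h5 := hG u v1 hv10 hv12
      have h6 := hA u v1 le_rfl hv12
      have h7 : (64 * C + 2) * ML u / v1 = (32 * C + 1) * Lam u := by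
        rw [← ML_mul u, hv1d]
        field_simp
        ring
      rw [h7] at h6
      linarith
    have hmem : ∀ z ∈ Metric.ball c v1, 1 / 2 < z.re := by
      intro z hz
      rw [mem_ball_iff_norm] at hz
      have h5 := (Complex.abs_re_le_norm (z - c)).trans_lt hz
      rw [sub_re, abs_lt] at h5
      linarith [h5.1]
    have hd : ‖(1 / 2 + v + u * I : ℂ) - c‖ = v1 - v := by
      have e : (1 / 2 + v + u * I : ℂ) - c = ((v - v1 : ℝ) : ℂ) := by
        rw [hcd]
        push_cast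
        ring
      rw [e, Complex.norm_real, Real.norm_eq_abs, abs_of_nonpos (by linarith)]
      ring
    have hz : (1 / 2 + v + u * I : ℂ) ∈ Metric.ball c v1 := by
      rw [mem_ball_iff_norm, hd]
      linarith
    have hcar := (Pool.Agent.Q190.GB.t_CAR F c v1 hv10 (by
      intro z hz'
      have h3 := (hpos z (hmem z hz')).1
      exact ((xi_diff.analyticAt z).deriv.differentiableAt.div (xi_diff z) h3).differentiableWithinAt)
      (fun z hz' => (hpos z (hmem z hz')).2) _ hz).1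
    rw [hd] at hcar
    have h3 : (F c).re ≤ (Cγ + (32 * C + 1)) * Lam u := (Complex.re_le_norm _).trans hFc
    have hK : 0 < Cγ + (32 * C + 1) := by positivity
    have h5 : 2 * (v1 - v) / (v1 - (v1 - v)) * (F c).re ≤ 4 * (Cγ + (32 * C + 1)) * (ML u / v) := by
      rw [show v1 - (v1 - v) = v by ring]
      calc 2 * (v1 - v) / v * (F c).re ≤ 2 * (v1 - v) / v * ((Cγ + (32 * C + 1)) * Lam u) :=
            mul_le_mul_of_nonneg_left h3 (div_nonneg (by linarith) hv.le)
        _ ≤ 2 * v1 / v * ((Cγ + (32 * C + 1)) * Lam u) := by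
            apply mul_le_mul_of_nonneg_right _ (by positivity)
            exact div_le_div_of_nonneg_right (by linarith) hv.le
        _ = 4 * (Cγ + (32 * C + 1)) * (ML u / v) := by
            rw [← ML_mul u, hv1d]
            field_simp
            norm_num
    have h6 : ‖F (1 / 2 + v + u * I)‖ ≤ (Cγ + (32 * C + 1)) * Lam u + 4 * (Cγ + (32 * C + 1)) * (ML u / v) := by
      calc ‖F (1 / 2 + v + u * I)‖ = ‖F c + (F (1 / 2 + v + u * I) - F c)‖ := by
            congr 1
            ring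
        _ ≤ ‖F c‖ + ‖F (1 / 2 + v + u * I) - F c‖ := norm_add_le _ _
        _ ≤ _ := by linarith
    have h7 : deriv G (1 / 2 + v + u * I) / G (1 / 2 + v + u * I) =
        F (1 / 2 + v + u * I) - deriv gm (1 / 2 + v + u * I) / gm (1 / 2 + v + u * I) := by
      rw [hXL v hv]
      ring
    rw [h7]
    refine (norm_sub_le _ _).trans ?_
    have h8 := hG u v hv (by linarith)
    have h9 : 0 < Cγ * (ML u / v) := by positivity
    have h10 : 0 < C * Lam u := by positivity
    have h11 : 0 < C * (ML u / v) := by positivity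
    have h12 : 0 < Cγ * Lam u := by positivity
    nlinarith

theorem pt_ne_one_iff (v u : ℝ) : (1 / 2 + v + u * I : ℂ) - 1 = -1 / 2 + v + u * I := by ring

/-- **Z1 (a).** -/
theorem ld : Pool.Agent.Q286.BD.S_LD := by
  intro hRH
  obtain ⟨C, hC, h⟩ := ldG hRH
  refine ⟨C, hC, fun u v hv hv1 => ?_⟩
  by_cases h1 : (1 / 2 + v + u * I : ℂ) = 1
  · have h2 : (-1 / 2 + v + u * I : ℂ) = 0 := by
      rw [← pt_ne_one_iff, h1, sub_self]
    have h3 : deriv riemannZeta 1 = 0 := by
      apply deriv_zero_of_not_differentiableAt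
      intro hd
      have hc := hd.continuousAt.tendsto
      have h4 : Tendsto (fun s : ℂ => (s - 1) * riemannZeta s) (𝓝[≠] 1) (𝓝 0) := by
        have a1 : Tendsto (fun s : ℂ => s - 1) (𝓝[≠] 1) (𝓝 0) := by
          have : Tendsto (fun s : ℂ => s - 1) (𝓝 1) (𝓝 (1 - 1)) :=
            (continuous_id.sub continuous_const).tendsto 1
          rw [sub_self] at this
          exact this.mono_left nhdsWithin_le_nhds
        have a2 := a1.mul (hc.mono_left nhdsWithin_le_nhds)
        rwa [zero_mul] at a2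
      have h5 := tendsto_nhds_unique h4 riemannZeta_residue_one
      exact zero_ne_one h5
    rw [h1, h2, h3]
    simp only [zero_div, div_zero, add_zero, norm_zero]
    have := Lam_pos u
    have := ML_pos u
    positivity
  · have h2 : (1 / 2 : ℝ) < (1 / 2 + v + u * I : ℂ).re := by rw [epos, hre, hzre]; linarith
    have h3 := logDeriv_G h1 (zeta_ne hRH h2 h1)
    rw [pt_ne_one_iff] at h3
    rw [← h3]
    exact h u v hv hv1

/-- the formula for the size of zeta -/
theorem log_zeta {g : ℂ → ℂ}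
    (hg2 : ∀ z : ℂ, 0 < z.re → cexp (g z) = G (1 / 2 + z) / (3 / 2 + z)) {v u : ℝ} (hv : 0 < v)
    (h1 : (1 / 2 + v + u * I : ℂ) ≠ 1) :
    Real.log (‖riemannZeta (1 / 2 + v + u * I)‖ * ‖(-1 / 2 + v + u * I : ℂ)‖) =
      (g (v + u * I)).re + Real.log ‖(3 / 2 + (v + u * I) : ℂ)‖ := by
  have h2 := hg2 (v + u * I) (by rw [hzre]; exact hv)
  have h3 : (3 / 2 + ((v : ℂ) + u * I)) ≠ 0 := by
    intro h
    have := enorm3 ((v : ℂ) + u * I) (by rw [hzre]; exact hv)
    rw [h, norm_zero] at this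
    linarith
  have h4 : G (1 / 2 + v + u * I) = cexp (g (v + u * I)) * (3 / 2 + (v + u * I)) := by
    rw [h2, epos, div_mul_cancel₀ _ h3]
  rw [G_ne h1, pt_ne_one_iff] at h4
  have h5 : ‖riemannZeta (1 / 2 + v + u * I)‖ * ‖(-1 / 2 + v + u * I : ℂ)‖ =
      Real.exp (g (v + u * I)).re * ‖(3 / 2 + (v + u * I) : ℂ)‖ := by
    rw [← Complex.norm_exp, ← norm_mul (cexp _), ← h4, norm_mul, mul_comm]
  rw [h5, Real.log_mul (Real.exp_pos _).ne' (norm_ne_zero_iff.2 h3), Real.log_exp]

/-- **Z1 (b).** -/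
theorem far : Pool.Agent.Q286.BD.S_far := by
  intro hRH
  obtain ⟨g, hg1, hg2, hB⟩ := exists_lg hRH
  obtain ⟨C, hC, hfar⟩ := lg_bound hRH hg1 hB
  refine ⟨C + 3, by positivity, fun u v hv hv1 h1 => ?_⟩
  have hLu : 0 < Real.log (Lam u) := by linarith [logLam_gt u]
  have hv0 : 0 < v := lt_of_lt_of_le (by positivity) hv
  rw [log_zeta hg2 hv0 h1]
  refine (abs_add_le _ _).trans ?_
  have h2 := (Complex.abs_re_le_norm _).trans (hfar u v hv)
  have h3 := enorm3 ((v : ℂ) + u * I) (by rw [hzre]; exact hv0)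
  have h4 : ‖(3 / 2 + (v + u * I) : ℂ)‖ ≤ (|u| + 2) ^ 2 := by
    have a1 : ‖(3 / 2 + (v + u * I) : ℂ)‖ ≤ |3 / 2 + v| + |u| := by
      have := Complex.norm_le_abs_re_add_abs_im (3 / 2 + ((v : ℂ) + u * I))
      have e1 : (3 / 2 + ((v : ℂ) + u * I)).re = 3 / 2 + v := by simp
      have e2 : (3 / 2 + ((v : ℂ) + u * I)).im = u := by simp
      rwa [e1, e2] at this
    rw [abs_of_pos (by linarith : (0 : ℝ) < 3 / 2 + v)] at a1
    have := abs_nonneg u
    nlinarith
  have h5 : 0 ≤ Real.log ‖(3 / 2 + (v + u * I) : ℂ)‖ := Real.log_nonneg (by linarith)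
  have h6 : Real.log ‖(3 / 2 + (v + u * I) : ℂ)‖ ≤ 2 * Real.log (|u| + 2) := by
    have := Real.log_le_log (by linarith) h4
    rw [Real.log_pow] at this
    exact_mod_cast this
  rw [abs_of_nonneg h5]
  have h7 := ML_pos u
  have h8 : 0 ≤ Real.log (|u| + 2) := Real.log_nonneg (by linarith [abs_nonneg u])
  nlinarith

/-- **Z1 (b').** -/
theorem far' : Pool.Agent.Q286.BD.S_far' := by
  intro hRH
  obtain ⟨g, hg1, hg2, hB⟩ := exists_lg hRH
  obtain ⟨C, hC, hfar⟩ := lg_bound hRH hg1 hB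
  refine ⟨C + 2, by positivity, fun u v hu hv hv1 => ?_⟩
  have hLu : 0 < Real.log (Lam u) := by linarith [logLam_gt u]
  have hv0 : 0 < v := lt_of_lt_of_le (by positivity) hv
  have h1 : (1 / 2 + v + u * I : ℂ) ≠ 1 := by
    intro h
    have h2 := congrArg Complex.im h
    rw [epos, him, hzim, one_im] at h2
    rw [h2, abs_zero] at hu
    linarith
  have h2 := log_zeta hg2 hv0 h1
  have e1 : (-1 / 2 + v + u * I : ℂ).im = u := by simp
  have e2 : (-1 / 2 + v + u * I : ℂ).re = -1 / 2 + v := by simp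
  have hn : 1 ≤ ‖(-1 / 2 + v + u * I : ℂ)‖ := by
    have := Complex.abs_im_le_norm (-1 / 2 + v + u * I : ℂ)
    rw [e1] at this
    linarith
  have hz : riemannZeta (1 / 2 + v + u * I) ≠ 0 :=
    zeta_ne hRH (by rw [epos, hre, hzre]; linarith) h1
  rw [Real.log_mul (norm_ne_zero_iff.2 hz) (by linarith)] at h2
  have h3 : Real.log ‖riemannZeta (1 / 2 + v + u * I)‖ = (g (v + u * I)).re +
      (Real.log ‖(3 / 2 + (v + u * I) : ℂ)‖ - Real.log ‖(-1 / 2 + v + u * I : ℂ)‖) := by linarith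
  rw [h3]
  refine (abs_add_le _ _).trans ?_
  have h4 := (Complex.abs_re_le_norm _).trans (hfar u v hv)
  have h5 : ‖(3 / 2 + (v + u * I) : ℂ)‖ ≤ 3 * ‖(-1 / 2 + v + u * I : ℂ)‖ := by
    have e3 : (3 / 2 + (v + u * I) : ℂ) = (-1 / 2 + v + u * I) + 2 := by ring
    rw [e3]
    refine (norm_add_le _ _).trans ?_
    rw [Complex.norm_ofNat]
    linarith
  have h6 : ‖(-1 / 2 + v + u * I : ℂ)‖ ≤ ‖(3 / 2 + (v + u * I) : ℂ)‖ := by
    apply le_of_pow_le_pow_left₀ (by norm_num : 2 ≠ 0) (norm_nonneg _)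
    rw [← Complex.normSq_eq_norm_sq, ← Complex.normSq_eq_norm_sq, Complex.normSq_apply, Complex.normSq_apply,
      e1, e2]
    have e3 : (3 / 2 + ((v : ℂ) + u * I)).re = 3 / 2 + v := by simp
    have e4 : (3 / 2 + ((v : ℂ) + u * I)).im = u := by simp
    rw [e3, e4]
    nlinarith
  have h7 : 0 ≤ Real.log ‖(3 / 2 + (v + u * I) : ℂ)‖ - Real.log ‖(-1 / 2 + v + u * I : ℂ)‖ := by
    rw [sub_nonneg]
    exact Real.log_le_log (by linarith) h6
  have h8 : Real.log ‖(3 / 2 + (v + u * I) : ℂ)‖ - Real.log ‖(-1 / 2 + v + u * I : ℂ)‖ ≤ 2 := by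
    have := Real.log_le_log (by linarith) h5
    rw [Real.log_mul (by norm_num) (by linarith)] at this
    have h9 : Real.log 3 ≤ 3 - 1 := Real.log_le_sub_one_of_pos (by norm_num)
    linarith
  rw [abs_of_nonneg h7]
  have h9 := ML_ge u
  nlinarith

/-- **Z1 (c).** -/
theorem mono : Pool.Agent.Q286.BD.S_mono := by
  intro hRH
  obtain ⟨C, hC, hg⟩ := gm_ld_re
  have hz1 : 0 < ‖riemannZeta 1‖ := norm_pos_iff.2 riemannZeta_one_ne_zero
  refine ⟨Real.exp C + ‖riemannZeta (cl 0)‖ / ‖riemannZeta 1‖, by positivity, ?_⟩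
  intro t x hx0 hx1
  have ecl : cl t = 1 / 2 + (0 : ℝ) + t * I := by simp [cl]
  have hreP : ∀ y : ℝ, ((1 / 2 : ℂ) + (y : ℝ) + t * I).re = 1 / 2 + y := by
    intro y; simp
  have himP : ∀ y : ℝ, ((1 / 2 : ℂ) + (y : ℝ) + t * I).im = t := by
    intro y; simp
  have hL := Lam_gt t
  have hX := (pos hRH).2.2 0 x t le_rfl hx0.le
  -- the gamma factor
  have hgr : ‖gm (1 / 2 + x + t * I)‖ ≤ ‖gm (cl t)‖ * Real.exp ((Lam t / 2 + C) * x) := by
    have hd : ∀ y : ℝ, 0 ≤ y → HasDerivAt (fun y : ℝ => Real.log ‖gm (1 / 2 + (y : ℝ) + t * I)‖)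
        ((deriv gm (1 / 2 + (y : ℝ) + t * I) / gm (1 / 2 + (y : ℝ) + t * I)).re) y := by
      intro y hy
      have hs : 0 < ((1 / 2 : ℂ) + (y : ℝ) + t * I).re := by rw [hreP]; linarith
      have hl : HasDerivAt (fun y : ℝ => (1 / 2 + (y : ℂ) + t * I)) 1 y := by
        have h2 := ((hasDerivAt_id y).ofReal_comp.const_add (1 / 2 : ℂ)).add_const (t * I : ℂ)
        simpa using h2
      have h3 := HasDerivAt.comp_of_eq y (gm_hd hs).differentiableAt.hasDerivAt hl rfl
      rw [mul_one] at h3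
      exact Pool.Agent.Q162.BD.hasDerivAt_log_norm h3 (gm_ne hs)
    have hmono : MonotoneOn (fun y : ℝ => (Lam t / 2 + C) * y - Real.log ‖gm (1 / 2 + (y : ℝ) + t * I)‖)
        (Icc 0 x) := by
      have hd2 : ∀ y : ℝ, 0 ≤ y → HasDerivAt
          (fun y : ℝ => (Lam t / 2 + C) * y - Real.log ‖gm (1 / 2 + (y : ℝ) + t * I)‖)
          ((Lam t / 2 + C) * 1 - (deriv gm (1 / 2 + (y : ℝ) + t * I) / gm (1 / 2 + (y : ℝ) + t * I)).re) y :=
        fun y hy => ((hasDerivAt_id y).const_mul _).sub (hd y hy)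
      refine monotoneOn_of_deriv_nonneg (convex_Icc 0 x)
        (fun y hy => (hd2 y hy.1).continuousAt.continuousWithinAt)
        (fun y hy => (hd2 y (by rw [interior_Icc] at hy; exact hy.1.le)).differentiableAt.differentiableWithinAt)
        fun y hy => ?_
      rw [interior_Icc] at hy
      rw [(hd2 y hy.1.le).deriv]
      have h4 := hg (1 / 2 + (y : ℝ) + t * I) (by rw [hreP]; linarith [hy.1]) (by rw [hreP]; linarith [hy.2])
      rw [himP] at h4
      have h5 : Real.log (|t| + 16) = Lam t := rfl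
      rw [h5] at h4
      linarith
    have h1 := hmono (left_mem_Icc.2 hx0.le) (right_mem_Icc.2 hx0.le) hx0.le
    simp only [mul_zero, zero_sub] at h1
    rw [← ecl] at h1
    have g1 : 0 < ‖gm (cl t)‖ := norm_pos_iff.2 (gm_ne (by rw [ecl, hreP]; norm_num))
    have g2 : 0 < ‖gm (1 / 2 + (x : ℝ) + t * I)‖ := norm_pos_iff.2 (gm_ne (by rw [hreP]; linarith))
    have h2 : Real.log ‖gm (1 / 2 + (x : ℝ) + t * I)‖ ≤ Real.log ‖gm (cl t)‖ + (Lam t / 2 + C) * x := by
      linarith
    calc ‖gm (1 / 2 + x + t * I)‖ = Real.exp (Real.log ‖gm (1 / 2 + (x : ℝ) + t * I)‖) := (Real.exp_log g2).symm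
      _ ≤ Real.exp (Real.log ‖gm (cl t)‖ + (Lam t / 2 + C) * x) := Real.exp_le_exp.2 h2
      _ = _ := by rw [Real.exp_add, Real.exp_log g1]
  have e1 := X_eq (s := cl t) (by rw [ecl, hreP]; norm_num)
  have e2 := X_eq (s := 1 / 2 + x + t * I) (by rw [hreP]; linarith)
  have hgpos : 0 < ‖gm (cl t)‖ := norm_pos_iff.2 (gm_ne (by rw [ecl, hreP]; norm_num))
  rw [← ecl, e1, e2, norm_mul, norm_mul] at hX
  have h3 : ‖gm (cl t)‖ * ‖G (cl t)‖ ≤
      ‖gm (cl t)‖ * (Real.exp ((Lam t / 2 + C) * x) * ‖G (1 / 2 + x + t * I)‖) := by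
    calc _ ≤ _ := hX
      _ ≤ (‖gm (cl t)‖ * Real.exp ((Lam t / 2 + C) * x)) * ‖G (1 / 2 + x + t * I)‖ :=
        mul_le_mul_of_nonneg_right hgr (norm_nonneg _)
      _ = _ := by ring
  have h4 := le_of_mul_le_mul_left h3 hgpos
  -- from `G` to zeta
  have n1 : cl t ≠ 1 := by
    intro h
    have := congrArg Complex.re h
    rw [ecl, hreP, one_re] at this
    norm_num at this
  have h5 : ‖G (cl t)‖ = ‖cl t - 1‖ * ‖riemannZeta (cl t)‖ := by rw [G_ne n1, norm_mul]
  have hc1 : 0 < ‖cl t - 1‖ := norm_pos_iff.2 (sub_ne_zero.2 n1)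
  by_cases n2 : (1 / 2 + x + t * I : ℂ) = 1
  · -- the point `1`
    have hx2 : x = 1 / 2 := by
      have := congrArg Complex.re n2
      rw [hreP, one_re] at this
      linarith
    have ht0 : t = 0 := by
      have := congrArg Complex.im n2
      rwa [himP, one_im] at this
    subst ht0
    rw [n2]
    have h6 : 1 ≤ Real.exp (x * Lam 0) := Real.one_le_exp (by positivity)
    have h7 : ‖riemannZeta (cl 0)‖ = ‖riemannZeta (cl 0)‖ / ‖riemannZeta 1‖ * 1 * ‖riemannZeta 1‖ := by
      field_simp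
    calc ‖riemannZeta (cl 0)‖ = ‖riemannZeta (cl 0)‖ / ‖riemannZeta 1‖ * 1 * ‖riemannZeta 1‖ := h7
      _ ≤ _ := by
        apply mul_le_mul_of_nonneg_right _ hz1.le
        apply mul_le_mul _ h6 zero_le_one (by positivity)
        linarith [Real.exp_pos C]
  · have h6 : ‖G (1 / 2 + x + t * I)‖ = ‖(1 / 2 + x + t * I : ℂ) - 1‖ * ‖riemannZeta (1 / 2 + x + t * I)‖ := by
      rw [G_ne n2, norm_mul]
    have h7 : ‖(1 / 2 + x + t * I : ℂ) - 1‖ ≤ ‖cl t - 1‖ := by
      apply le_of_pow_le_pow_left₀ (by norm_num : 2 ≠ 0) (norm_nonneg _)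
      rw [← Complex.normSq_eq_norm_sq, ← Complex.normSq_eq_norm_sq, Complex.normSq_apply, Complex.normSq_apply,
        sub_re, sub_im, sub_re, sub_im, hreP, himP, ecl, hreP, himP, one_re, one_im]
      nlinarith
    rw [h5, h6] at h4
    have h8 : ‖cl t - 1‖ * ‖riemannZeta (cl t)‖ ≤
        ‖cl t - 1‖ * (Real.exp ((Lam t / 2 + C) * x) * ‖riemannZeta (1 / 2 + x + t * I)‖) := by
      refine h4.trans ?_
      calc Real.exp ((Lam t / 2 + C) * x) *
            (‖(1 / 2 + x + t * I : ℂ) - 1‖ * ‖riemannZeta (1 / 2 + x + t * I)‖)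
          ≤ Real.exp ((Lam t / 2 + C) * x) * (‖cl t - 1‖ * ‖riemannZeta (1 / 2 + x + t * I)‖) := by
            gcongr
        _ = _ := by ring
    have h9 := le_of_mul_le_mul_left h8 hc1
    refine h9.trans (mul_le_mul_of_nonneg_right ?_ (norm_nonneg _))
    have h10 : Real.exp ((Lam t / 2 + C) * x) ≤ Real.exp C * Real.exp (x * Lam t) := by
      rw [← Real.exp_add]
      apply Real.exp_le_exp.2
      nlinarith
    refine h10.trans (mul_le_mul_of_nonneg_right ?_ (Real.exp_pos _).le)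
    have : 0 ≤ ‖riemannZeta (cl 0)‖ / ‖riemannZeta 1‖ := by positivity
    linarith

end Pool.Agent.H575.BD
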