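import Pool.Graph.R_pool_sql_team_seeded_3997aac3.Q202.BD.Low
import Pool.Graph.R_pool_sql_team_seeded_3997aac3.Q153.BD.Orth
import Pool.Graph.R_seed8.H353R3.S6
import Pool.Graph.R_pool_sql_team_seeded_3997aac3.Q286.BD.Fin

/-!
# Project BD (helper286), job E1: if the Riemann hypothesis fails the distance does not tend to zero (helper575)
-/

set_option autoImplicit false

namespace Pool.Agent.H575.BD

open Complex MeasureTheory Filter Topology Set
open Pool.Agent.Q286.BD (cl mz JJ dif)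
open Pool.Agent.Q202.BD (pair pair_le)

/-- the test function -/
noncomputable def KR (ρ : ℂ) (y : ℝ) : ℂ := if y < 1 then (1 / (1 - ρ)) / y else (y : ℂ) ^ (-ρ - 1)

theorem KR_meas (ρ : ℂ) : Measurable (KR ρ) := by
  unfold KR
  refine Measurable.ite measurableSet_Iio ?_ ?_
  · exact measurable_const.div Complex.measurable_ofReal
  · exact Complex.measurable_ofReal.pow_const _

/-- **E1.** -/
theorem nrh : Pool.Agent.Q286.BD.S_nrh := by
  intro hRH
  obtain ⟨ρ, hρ1, hρne, hρ0⟩ : ∃ ρ : ℂ, 1 / 2 < ρ.re ∧ ρ ≠ 1 ∧ riemannZeta ρ = 0 := by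
    by_contra h
    apply hRH
    apply H353.RH_of
    intro s h1 h2 h3
    exact h ⟨s, h1, h2, h3⟩
  have hρ2 : ρ.re < 1 := by
    by_contra h
    exact riemannZeta_ne_zero_of_one_le_re (not_lt.1 h) hρ0
  have hn1 : (1 - ρ) ≠ 0 := sub_ne_zero.2 (Ne.symm hρne)
  have hn0 : ρ ≠ 0 := by
    rintro rfl
    simp at hρ1
    linarith
  have hmz : 0 < mz ρ := by
    have := Pool.Agent.Q286.BD.mz_pos ⟨ρ, hρ0, by linarith, hρ2⟩
    exact this
  set κ : ℂ := 1 / (1 - ρ) with hκ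
  set β : ℝ := ρ.re with hβ
  -- the square integral
  have e1 : ∀ y ∈ Ioo (0 : ℝ) 1, ‖KR ρ y‖ ^ 2 * y ^ 2 = ‖κ‖ ^ 2 := by
    intro y hy
    unfold KR
    rw [if_pos hy.2, norm_div, Complex.norm_real, Real.norm_eq_abs, abs_of_pos hy.1, div_pow,
      div_mul_cancel₀ _ (pow_ne_zero 2 hy.1.ne')]
  have e2 : ∀ y ∈ Ioi (1 : ℝ), ‖KR ρ y‖ ^ 2 * y ^ 2 = y ^ (-(2 * β)) := by
    intro y hy
    have hy1 : (1 : ℝ) < y := hy
    have hy0 : 0 < y := by linarith
    unfold KR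
    rw [if_neg (not_lt.2 hy1.le), Complex.norm_cpow_eq_rpow_re_of_pos hy0, ← Real.rpow_natCast,
      ← Real.rpow_mul hy0.le, ← Real.rpow_natCast y 2, ← Real.rpow_add hy0]
    congr 1
    rw [sub_re, neg_re, one_re]
    push_cast
    ring
  have i1 : IntegrableOn (fun y : ℝ => ‖KR ρ y‖ ^ 2 * y ^ 2) (Ioc 0 1) := by
    rw [integrableOn_Ioc_iff_integrableOn_Ioo]
    exact (integrableOn_const (C := ‖κ‖ ^ 2) (by simp)).congr_fun (fun y hy => (e1 y hy).symm) measurableSet_Ioo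
  have i2 : IntegrableOn (fun y : ℝ => ‖KR ρ y‖ ^ 2 * y ^ 2) (Ioi 1) := by
    refine (integrableOn_Ioi_rpow_of_lt (show -(2 * β) < -1 by linarith) one_pos).congr_fun
      (fun y hy => (e2 y hy).symm) measurableSet_Ioi
  have i3 : IntegrableOn (fun y : ℝ => ‖KR ρ y‖ ^ 2 * y ^ 2) (Ioi 0) := by
    rw [← Ioc_union_Ioi_eq_Ioi (zero_le_one' ℝ)]
    exact i1.union i2
  have hKm := KR_meas ρ
  set B : ℝ := ∫ y in Ioi (0 : ℝ), ‖KR ρ y‖ ^ 2 * y ^ 2 with hB
  have hB0 : 0 ≤ B := integral_nonneg fun y => by positivity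
  -- the integral over `(1, ∞)`
  have j1 : ∫ y in Ioi (1 : ℝ), KR ρ y = 1 / ρ := by
    have h1 : ∫ y in Ioi (1 : ℝ), KR ρ y = ∫ y in Ioi (1 : ℝ), (y : ℂ) ^ (-ρ - 1) := by
      refine setIntegral_congr_fun measurableSet_Ioi fun y hy => ?_
      unfold KR
      rw [if_neg (not_lt.2 (le_of_lt hy))]
    rw [h1, integral_Ioi_cpow_of_lt (by rw [sub_re, neg_re, one_re]; linarith) one_pos]
    rw [ofReal_one, one_cpow, sub_add_cancel]
    field_simp
  -- orthogonality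
  have j2 : ∀ n : ℕ, 1 ≤ n → ∫ y in Ioi (0 : ℝ), ((Int.fract (y / (n : ℝ)) : ℝ) : ℂ) * KR ρ y = 0 := by
    intro n hn
    have hn0 : (0 : ℝ) < n := by exact_mod_cast hn
    have hnc : (n : ℂ) ≠ 0 := by exact_mod_cast (by omega : n ≠ 0)
    have hint := Pool.Agent.Q202.BD.intfr hKm i3 n hn
    have h1 : ∫ y in Ioi (0 : ℝ), ((Int.fract (y / (n : ℝ)) : ℝ) : ℂ) * KR ρ y =
        (∫ y in Ioc (0 : ℝ) 1, ((Int.fract (y / (n : ℝ)) : ℝ) : ℂ) * KR ρ y) +
          ∫ y in Ioi (1 : ℝ), ((Int.fract (y / (n : ℝ)) : ℝ) : ℂ) * KR ρ y := by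
      rw [← Ioc_union_Ioi_eq_Ioi (zero_le_one' ℝ)] at hint ⊢
      exact setIntegral_union (Set.disjoint_left.2 fun x hx hx2 => absurd hx.2 (not_le.2 hx2)) measurableSet_Ioi
        (hint.mono_set subset_union_left) (hint.mono_set subset_union_right)
    have h2 : ∫ y in Ioc (0 : ℝ) 1, ((Int.fract (y / (n : ℝ)) : ℝ) : ℂ) * KR ρ y = κ / n := by
      rw [integral_Ioc_eq_integral_Ioo]
      have h3 : ∀ y ∈ Ioo (0 : ℝ) 1, ((Int.fract (y / (n : ℝ)) : ℝ) : ℂ) * KR ρ y = κ / n := by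
        intro y hy
        have hf : Int.fract (y / (n : ℝ)) = y / n := by
          rw [Int.fract_eq_self]
          refine ⟨by have := hy.1; positivity, ?_⟩
          rw [div_lt_one hn0]
          have : (1 : ℝ) ≤ n := by exact_mod_cast hn
          linarith [hy.2]
        have hyc : (y : ℂ) ≠ 0 := by exact_mod_cast hy.1.ne'
        unfold KR
        rw [hf, if_pos hy.2, hκ]
        push_cast
        field_simp
      rw [setIntegral_congr_fun measurableSet_Ioo h3]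
      simp
    have h4 : ∫ y in Ioi (1 : ℝ), ((Int.fract (y / (n : ℝ)) : ℝ) : ℂ) * KR ρ y = -(κ / n) := by
      have h5 := (Pool.Agent.Q153.BD.orth ρ (by linarith) hρ2 0 n hmz hn).2
      have h6 : ∫ y in Ioi (1 : ℝ), ((Int.fract (y / (n : ℝ)) : ℝ) : ℂ) * KR ρ y =
          ∫ y in Ioi (1 : ℝ), ((Int.fract (y / (n : ℝ)) : ℝ) : ℂ) * (y : ℂ) ^ (-ρ - 1) *
            ((Real.log y : ℝ) : ℂ) ^ 0 := by
        refine setIntegral_congr_fun measurableSet_Ioi fun y hy => ?_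
        unfold KR
        rw [if_neg (not_lt.2 (le_of_lt hy)), pow_zero, mul_one]
      rw [h6, h5, hκ]
      simp only [pow_zero, Nat.factorial_zero, Nat.cast_one, mul_one, zero_add, pow_one]
      field_simp
    rw [h1, h2, h4, add_neg_cancel]
  have hρn : 0 < ‖ρ‖ := norm_pos_iff.2 hn0
  refine ⟨(1 / ‖ρ‖ ^ 2) / (B + 1), by positivity, fun N a => ?_⟩
  have h1 := (pair N a hKm i3).2
  rw [j1, Finset.sum_eq_zero (fun n hn => by rw [j2 n (Finset.mem_Icc.1 hn).1, mul_zero]), sub_zero] at h1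
  have h2 := pair_le N a hKm i3
  rw [h1, norm_div, norm_one, div_pow, one_pow, ← hB] at h2
  have h3 : 0 ≤ JJ N a := integral_nonneg fun _ => sq_nonneg _
  rw [div_le_iff₀ (by positivity)]
  nlinarith

end Pool.Agent.H575.BD
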