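import Pool.Graph.R_pool_sql_team_seeded_3997aac3.Q149.BD.U
import Pool.Graph.R_pool_sql_team_seeded_3997aac3.Q202.BD.Low
import Pool.Graph.R_pool_sql_team_seeded_3997aac3.Q202.BD.Coef
import Pool.Graph.R_pool_sql_team_seeded_3997aac3.Q202.BD.Asm
import Pool.Graph.R_pool_sql_team_seeded_3997aac3.Q202.BD.Leg
import Pool.Graph.R_pool_sql_team_seeded_3997aac3.Q237.BD.Mel
import Pool.Graph.R_pool_sql_team_seeded_3997aac3.Q237.BD.Inv
import Pool.Graph.R_pool_sql_team_seeded_3997aac3.Q237.BD.PerRH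
import Pool.Graph.R_pool_sql_team_seeded_3997aac3.Q237.BD.Lim
import Pool.Graph.R_pool_sql_team_seeded_3997aac3.Q296.BD.Pt
import Pool.Graph.R_pool_sql_team_seeded_3997aac3.Q296.BD.Dec
import Pool.Graph.R_pool_sql_team_seeded_3997aac3.Q162.BD.ZtwoB
import Pool.Graph.R_pool_sql_team_seeded_3997aac3.Q153.BD.Per
import Pool.Graph.R_pool_sql_team_seeded_3997aac3.Q153.BD.Orth
import Pool.Graph.R_pool_sql_team_seeded_3997aac3.Q153.BD.T1
import Pool.Graph.R_pool_sql_team_seeded_3997aac3.Q95.BD.T2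
import Pool.Graph.R_pool_sql_team_seeded_3997aac3.Q238.BD.Saw
import Pool.Graph.R_pool_sql_team_seeded_3997aac3.Q238.BD.Gev
import Pool.Graph.R_pool_sql_team_seeded_3997aac3.Q177.BD.Cost
import Pool.Graph.R_pool_sql_team_seeded_3997aac3.Q210.BD.Loc
import Pool.Graph.R_pool_sql_team_seeded_3997aac3.Q286.BD.Fin
import Pool.Agent.H575.BD.Cnt
import Pool.Agent.H575.BD.Ld
import Pool.Agent.H575.BD.HH
import Pool.Agent.H575.BD.Const
import Pool.Agent.H575.BD.Nrh

set_option autoImplicit false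

/-!
# Project BD: assembly.  All jobs are proven; the Báez-Duarte conjecture's equivalences for `ζ`.
-/

namespace Pool.Agent.H575.BD

open Complex MeasureTheory Filter Topology Set Pool.Agent.Q286.BD

theorem upz : S_upz := Pool.Agent.Q162.BD.upz ld far far' mono

theorem lowb : S_lowb := Pool.Agent.Q162.BD.lowb ld far far' mono

theorem ratio : S_ratio := Pool.Agent.Q162.BD.ratio ld far far' mono

theorem perRH : S_perRH := Pool.Agent.Q237.BD.perRH Pool.Agent.Q153.BD.per lowb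

theorem lim : S_lim := Pool.Agent.Q237.BD.lim Pool.Agent.Q237.BD.inv perRH ratio lowb upz

theorem pt : S_pt := Pool.Agent.Q296.BD.pt ratio lowb upz perRH

theorem dec : S_dec := Pool.Agent.Q296.BD.dec ratio lowb upz perRH hh

theorem cost : S_cost := Pool.Agent.Q177.BD.cost Q238.BD.gev Pool.Agent.Q202.BD.leg

theorem up : S_up :=
  Pool.Agent.Q149.BD.up pt dec lim Pool.Agent.Q202.BD.asm cost Pool.Agent.Q210.BD.loc
    Pool.Agent.Q237.BD.mel cnt sum2 upz

theorem t1 : S_T1 := Pool.Agent.Q153.BD.t1 Pool.Agent.Q153.BD.orth Q238.BD.saw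

theorem low : S_low :=
  Pool.Agent.Q202.BD.low Pool.Agent.Q202.BD.leg t1 Pool.Agent.Q95.BD.t2 Pool.Agent.Q202.BD.coef

theorem main1 : RiemannHypothesis ↔ Tendsto (fun N : ℕ => d2 N * Real.log N) atTop (𝓝 CB) :=
  iff1 up low nrh sum2

theorem main2 : RiemannHypothesis ↔ ∃ C : ℝ, ∀ N : ℕ, 2 ≤ N → d2 N ≤ C / Real.log N :=
  iff2 up low nrh sum2

theorem main2' : RiemannHypothesis ↔ ∃ C : ℝ, ∃ᶠ N : ℕ in atTop, d2 N ≤ C / Real.log N :=
  iff2' up low nrh sum2

theorem main3 : (RiemannHypothesis ∧ ∀ ρ : Zr, mz ρ = 1) ↔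
    Tendsto (fun N : ℕ => d2 N * Real.log N) atTop
      (𝓝 (2 + Real.eulerMascheroniConstant - Real.log (4 * Real.pi))) :=
  iff3 up low nrh const sum2

end Pool.Agent.H575.BD
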