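import Pool.Agent.H575.BD.Pos
import Pool.Graph.R_pool_sql_team_seeded_3997aac3.Q211.GB.Far
import Pool.Graph.R_pool_sql_team_seeded_3997aac3.Q241.SN.LP

/-!
# Project BD (helper286), job Z1 (b): the logarithm of zeta to the right of the critical line (helper575)
After `Pool/Agent/Q211/GB/Far.lean`.
-/

set_option autoImplicit false

namespace Pool.Agent.H575.BD

open Complex MeasureTheory Filter Topology Set
open scoped ComplexConjugate
open Pool.Agent.Q286.BD (cl Lam ML)
open Pool.Agent.Q162.BD (G G_ne G_one G_diff G_ne_zero logDeriv_G zeta_ne)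
open Pool.Agent.Y922.AP (xi)
open Pool.Agent.Y907.AP (xi_diff xi_sub xi_conj)
open Q241.SN (GH exists_log LP exp_LP hasDerivAt_LP LP_bound)
open Pool.Agent.Q211.GB (gh_conj gh_gr far_pos)
open Pool.Agent.Q261.BD (Lam_gt Lam_pos logLam_gt ML_ge ML_pos ML_le_Lam ML_mul Lam_neg ML_neg Lam_mono ML_mono
  ML_of_log)

theorem alg1 {a b p : ℂ} (ha : a ≠ 0) (hp : p ≠ 0) : (b * p - a * 1) / p ^ 2 / (a / p) = b / a - 1 / p := by
  field_simp

theorem alg2 {q p : ℂ} (hq : q ≠ 0) (hp : p ≠ 0) (h : p = q + 2) :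
    ((0 * p - -2 * 1) / p ^ 2) / (q / p) = 1 / q - 1 / p := by
  subst h
  field_simp
  ring

/-- the logarithm of `G(s)/(s+1)`, `s = 1/2 + z` -/
theorem exists_lg (hRH : RiemannHypothesis) : ∃ g : ℂ → ℂ,
    (∀ z : ℂ, 0 < z.re → HasDerivAt g (deriv G (1 / 2 + z) / G (1 / 2 + z) - 1 / (3 / 2 + z)) z) ∧
    (∀ z : ℂ, 0 < z.re → cexp (g z) = G (1 / 2 + z) / (3 / 2 + z)) ∧
    ∃ B : ℝ, 0 ≤ B ∧ ∀ z : ℂ, 2 ≤ z.re → ‖g z‖ ≤ B := by
  have hre : ∀ z : ℂ, (1 / 2 + z).re = 1 / 2 + z.re := fun z => by simp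
  have hre3 : ∀ z : ℂ, (3 / 2 + z).re = 3 / 2 + z.re := fun z => by simp
  have hd : ∀ z : ℂ, HasDerivAt (fun z => G (1 / 2 + z)) (deriv G (1 / 2 + z)) z := fun z =>
    (G_diff (1 / 2 + z)).hasDerivAt.comp_const_add (1 / 2) z
  have hd3 : ∀ z : ℂ, HasDerivAt (fun z : ℂ => 3 / 2 + z) 1 z := fun z => (hasDerivAt_id z).const_add (3 / 2)
  have hn3 : ∀ z : ℂ, 0 < z.re → (3 / 2 + z) ≠ 0 := by
    intro z hz h
    have := congrArg Complex.re h
    rw [hre3] at this
    simp at this
    linarith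
  have hnG : ∀ z : ℂ, 0 < z.re → G (1 / 2 + z) ≠ 0 := fun z hz => G_ne_zero hRH (by rw [hre]; linarith)
  have hdq : ∀ z : ℂ, 0 < z.re → HasDerivAt (fun z => G (1 / 2 + z) / (3 / 2 + z))
      ((deriv G (1 / 2 + z) * (3 / 2 + z) - G (1 / 2 + z) * 1) / (3 / 2 + z) ^ 2) z := fun z hz =>
    (hd z).div (hd3 z) (hn3 z hz)
  obtain ⟨g, hg1, hg2⟩ := exists_log (Z := fun z => G (1 / 2 + z) / (3 / 2 + z))
    (fun z hz => (hdq z hz).differentiableAt) (fun z hz => div_ne_zero (hnG z hz) (hn3 z hz))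
  have hg1' : ∀ z : ℂ, 0 < z.re →
      HasDerivAt g (deriv G (1 / 2 + z) / G (1 / 2 + z) - 1 / (3 / 2 + z)) z := by
    intro z hz
    have h2 := hg1 z hz
    rw [(hdq z hz).deriv] at h2
    exact h2.congr_deriv (alg1 (hnG z hz) (hn3 z hz))
  refine ⟨g, hg1', hg2, ?_⟩
  obtain ⟨C, hC, hb⟩ := LP_bound (σ0 := 2) (by norm_num)
  obtain ⟨U, hU⟩ : ∃ U : Set ℂ, U = {z : ℂ | 1 < z.re} := ⟨_, rfl⟩
  have hUm : ∀ z, z ∈ U ↔ 1 < z.re := fun z => by rw [hU]; rfl
  have hUo : IsOpen U := by rw [hU]; exact isOpen_lt continuous_const Complex.continuous_re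
  have hUc : Convex ℝ U := by rw [hU]; exact convex_halfSpace_re_gt 1
  have hw : ∀ z : ℂ, 1 < z.re → ‖-2 / (3 / 2 + z)‖ ≤ 4 / 5 := by
    intro z hz
    rw [norm_div, norm_neg, Complex.norm_ofNat, div_le_div_iff₀ (norm_pos_iff.2 (hn3 z (by linarith))) (by norm_num)]
    have h5 := Complex.re_le_norm (3 / 2 + z)
    rw [hre3] at h5
    linarith
  have hslit : ∀ z : ℂ, 1 < z.re → 1 + -2 / (3 / 2 + z) ∈ slitPlane := by
    intro z hz
    left
    have h2 := (Complex.abs_re_le_norm _).trans (hw z hz)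
    rw [abs_le] at h2
    rw [add_re, one_re]
    linarith [h2.1]
  have hdl : ∀ z : ℂ, 1 < z.re → HasDerivAt (fun z : ℂ => Complex.log (1 + -2 / (3 / 2 + z)))
      (1 / (-1 / 2 + z) - 1 / (3 / 2 + z)) z := by
    intro z hz
    have a1 : HasDerivAt (fun z : ℂ => 1 + -2 / (3 / 2 + z)) ((0 * (3 / 2 + z) - -2 * 1) / (3 / 2 + z) ^ 2) z :=
      ((hasDerivAt_const z (-2 : ℂ)).div (hd3 z) (hn3 z (by linarith))).const_add 1
    have a2 := a1.clog (hslit z hz)
    refine a2.congr_deriv ?_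
    have b := hn3 z (by linarith)
    have c : (-1 / 2 + z) ≠ 0 := by
      intro h
      have := congrArg Complex.re h
      simp at this
      linarith
    have d : 1 + -2 / (3 / 2 + z) = (-1 / 2 + z) / (3 / 2 + z) := by
      rw [eq_div_iff b, add_mul, div_mul_cancel₀ _ b]
      ring
    rw [d]
    exact alg2 c b (by ring)
  have hdLP : ∀ z : ℂ, 1 < z.re → HasDerivAt (fun z : ℂ => LP (1 / 2 + z))
      (deriv riemannZeta (1 / 2 + z) / riemannZeta (1 / 2 + z)) z := fun z hz =>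
    (hasDerivAt_LP (s := 1 / 2 + z) (by rw [hre]; linarith)).comp_const_add (1 / 2) z
  set F : ℂ → ℂ := fun z => LP (1 / 2 + z) + Complex.log (1 + -2 / (3 / 2 + z)) with hF
  have hU2 : (2 : ℂ) ∈ U := by
    rw [hUm]
    norm_num
  have hconst : ∀ z ∈ U, g z - F z = g 2 - F 2 := by
    have hdd : ∀ z ∈ U, HasDerivAt (fun z => g z - F z) 0 z := by
      intro z hz
      rw [hUm] at hz
      have h2 := (hg1' z (by linarith)).sub ((hdLP z hz).add (hdl z hz))
      refine h2.congr_deriv ?_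
      have hs1 : (1 / 2 + z) ≠ 1 := by
        intro h
        have := congrArg Complex.re h
        rw [hre] at this
        simp at this
        linarith
      have hz0 : riemannZeta (1 / 2 + z) ≠ 0 :=
        riemannZeta_ne_zero_of_one_le_re (by rw [hre]; linarith)
      rw [logDeriv_G hs1 hz0]
      have e : (1 / 2 + z - 1) = -1 / 2 + z := by ring
      rw [e]
      ring
    intro z hz
    exact hUc.is_const_of_fderivWithin_eq_zero (𝕜 := ℂ)
      (f := fun z => g z - F z)
      (fun w hw => (hdd w hw).differentiableAt.differentiableWithinAt)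
      (fun w hw => by
        rw [fderivWithin_of_isOpen hUo hw, (hdd w hw).hasFDerivAt.fderiv]
        ext
        simp) hz hU2
  refine ⟨‖g 2 - F 2‖ + C + 3, by positivity, fun z hz => ?_⟩
  have h1 : g z = (g 2 - F 2) + F z := by
    rw [← hconst z (by rw [hUm]; linarith)]
    ring
  have h2 : ‖LP (1 / 2 + z)‖ ≤ C := by
    refine (hb _ (by rw [hre]; linarith)).trans ?_
    have : (2 : ℝ) ^ (-(1 / 2 + z).re) ≤ 1 :=
      Real.rpow_le_one_of_one_le_of_nonpos (by norm_num) (by rw [hre]; linarith)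
    nlinarith
  have h3 : ‖Complex.log (1 + -2 / (3 / 2 + z))‖ ≤ 3 := by
    have h4 := hw z (by linarith)
    have h5 := Complex.norm_log_one_add_le (z := -2 / (3 / 2 + z)) (by linarith)
    refine h5.trans ?_
    set x := ‖-2 / (3 / 2 + z)‖ with hx
    have hx0 : 0 ≤ x := norm_nonneg _
    have h6 : (1 - x)⁻¹ ≤ 5 := by
      rw [inv_le_comm₀ (by linarith) (by norm_num)]
      linarith
    have h7 : x ^ 2 ≤ (4 / 5) ^ 2 := pow_le_pow_left₀ hx0 h4 2
    have h8 : x ^ 2 * (1 - x)⁻¹ ≤ (4 / 5) ^ 2 * 5 := mul_le_mul h7 h6 (by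
      rw [inv_nonneg]; linarith) (by positivity)
    linarith
  rw [h1]
  refine (norm_add_le _ _).trans ?_
  have h4 : ‖F z‖ ≤ C + 3 := (norm_add_le _ _).trans (add_le_add h2 h3)
  linarith

/-- the bound for the logarithm -/
theorem lg_bound (hRH : RiemannHypothesis) {g : ℂ → ℂ}
    (hg1 : ∀ z : ℂ, 0 < z.re → HasDerivAt g (deriv G (1 / 2 + z) / G (1 / 2 + z) - 1 / (3 / 2 + z)) z)
    (hgB : ∃ B : ℝ, 0 ≤ B ∧ ∀ z : ℂ, 2 ≤ z.re → ‖g z‖ ≤ B) :
    ∃ C : ℝ, 0 < C ∧ ∀ u v : ℝ, 1 / Real.log (Lam u) ≤ v → ‖g (v + u * I)‖ ≤ C * ML u := by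
  obtain ⟨B, hB, hgB⟩ := hgB
  obtain ⟨hpos, -, -⟩ := pos hRH
  obtain ⟨Cγ, hCγ, hγ⟩ := gm_ld_bound (1 / 2) (9 / 2) (by norm_num)
  have hre : ∀ z : ℂ, (1 / 2 + z).re = 1 / 2 + z.re := fun z => by simp
  have him : ∀ z : ℂ, (1 / 2 + z).im = z.im := fun z => by simp
  -- the rescaled function
  set D : ℝ := 8 * Cγ + 8 with hD
  have hD0 : 0 < D := by positivity
  set K : ℂ → ℂ := fun z => g (4 * z) / D with hK
  have h4re : ∀ z : ℂ, (4 * z).re = 4 * z.re := fun z => by simp
  have h4im : ∀ z : ℂ, (4 * z).im = 4 * z.im := fun z => by simp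
  have hKd : ∀ z : ℂ, 0 < z.re → HasDerivAt K
      ((deriv G (1 / 2 + 4 * z) / G (1 / 2 + 4 * z) - 1 / (3 / 2 + 4 * z)) * 4 / D) z := by
    intro z hz
    have h3 : HasDerivAt (fun z : ℂ => 4 * z) 4 z := by simpa using (hasDerivAt_id z).const_mul (4 : ℂ)
    exact ((hg1 (4 * z) (by rw [h4re]; linarith)).comp z h3).div_const _
  have hGH : GH K 2 := by
    refine ⟨fun z hz => (hKd z hz).differentiableAt, by norm_num, fun z hz hz1 => ?_, fun η hη => ?_⟩
    · rw [(hKd z hz).deriv]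
      have hs : (1 / 2 : ℝ) < (1 / 2 + 4 * z).re := by rw [hre, h4re]; linarith
      have hLne : G (1 / 2 + 4 * z) ≠ 0 := G_ne_zero hRH hs
      have hld := X_ld (s := 1 / 2 + 4 * z) (by linarith) hLne
      have hp := (hpos _ hs).2
      have hγ1 := hγ (1 / 2 + 4 * z) (by linarith) (by rw [hre, h4re]; linarith)
      have hγ0 := gm_ne (s := 1 / 2 + 4 * z) (by linarith)
      rw [him, h4im] at hγ1
      have h5 : ‖deriv gm (1 / 2 + 4 * z) / gm (1 / 2 + 4 * z)‖ ≤ Cγ * Real.log (|4 * z.im| + 16) := by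
        rw [norm_div, div_le_iff₀ (norm_pos_iff.2 hγ0)]
        exact hγ1
      have h6 := (Complex.re_le_norm _).trans h5
      have h7 : (deriv xi (1 / 2 + 4 * z) / xi (1 / 2 + 4 * z)).re =
          (deriv gm (1 / 2 + 4 * z) / gm (1 / 2 + 4 * z)).re +
          (deriv G (1 / 2 + 4 * z) / G (1 / 2 + 4 * z)).re := by
        rw [hld, add_re]
      have e1 : ((deriv G (1 / 2 + 4 * z) / G (1 / 2 + 4 * z) - 1 / (3 / 2 + 4 * z)) * 4 / D).re =
          4 / D * ((deriv G (1 / 2 + 4 * z) / G (1 / 2 + 4 * z)).re - (1 / (3 / 2 + 4 * z)).re) := by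
        have e2 : (deriv G (1 / 2 + 4 * z) / G (1 / 2 + 4 * z) - 1 / (3 / 2 + 4 * z)) * 4 / D =
            ((4 / D : ℝ) : ℂ) * (deriv G (1 / 2 + 4 * z) / G (1 / 2 + 4 * z) - 1 / (3 / 2 + 4 * z)) := by
          push_cast
          ring
        rw [e2, Complex.re_ofReal_mul, sub_re]
      rw [e1]
      have h1' : (1 / (3 / 2 + 4 * z)).re ≤ 1 := by
        refine (Complex.re_le_norm _).trans ?_
        have h12 : (3 / 2 : ℝ) ≤ ‖3 / 2 + 4 * z‖ := by
          have h13 := Complex.re_le_norm (3 / 2 + 4 * z)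
          have h14 : (3 / 2 + 4 * z).re = 3 / 2 + 4 * z.re := by simp
          rw [h14] at h13
          linarith
        rw [norm_div, norm_one, div_le_one (by linarith)]
        linarith
      have h8 : Real.log (|4 * z.im| + 16) ≤ Real.log (|z.im| + 3) + 2 := by
        have h9 : |4 * z.im| + 16 ≤ (|z.im| + 3) * 6 := by
          rw [abs_mul, abs_of_pos (by norm_num : (0 : ℝ) < 4)]
          linarith [abs_nonneg z.im]
        have h10 := Real.log_le_log (by positivity) h9
        rw [Real.log_mul (by positivity) (by norm_num)] at h10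
        have h11 : Real.log 6 ≤ 2 := by
          rw [Real.log_le_iff_le_exp (by norm_num)]
          have h12 : Real.exp 2 = Real.exp 1 * Real.exp 1 := by
            rw [← Real.exp_add]
            norm_num
          rw [h12]
          have := Real.exp_one_gt_d9
          nlinarith
        linarith
      have h9 : -(Cγ * (Real.log (|z.im| + 3) + 2)) - 1 ≤
          (deriv G (1 / 2 + 4 * z) / G (1 / 2 + 4 * z)).re - (1 / (3 / 2 + 4 * z)).re := by
        have h10 : Cγ * Real.log (|4 * z.im| + 16) ≤ Cγ * (Real.log (|z.im| + 3) + 2) :=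
          mul_le_mul_of_nonneg_left h8 hCγ.le
        linarith
      have h10 : 0 ≤ Real.log (|z.im| + 3) + 2 := by
        have : 0 ≤ Real.log (|z.im| + 3) := Real.log_nonneg (by linarith [abs_nonneg z.im])
        linarith
      have h11 : 4 / D * (-(Cγ * (Real.log (|z.im| + 3) + 2)) - 1) ≤
          4 / D * ((deriv G (1 / 2 + 4 * z) / G (1 / 2 + 4 * z)).re - (1 / (3 / 2 + 4 * z)).re) :=
        mul_le_mul_of_nonneg_left h9 (by positivity)
      refine le_trans ?_ h11
      have h12 : 4 / D * Cγ ≤ 1 / 2 := by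
        rw [div_mul_eq_mul_div, div_le_iff₀ hD0, hD]
        linarith
      have h12' : 4 / D ≤ 1 / 2 := by
        rw [div_le_iff₀ hD0, hD]
        linarith
      have h13 : 4 / D * Cγ * (Real.log (|z.im| + 3) + 2) ≤ 1 / 2 * (Real.log (|z.im| + 3) + 2) :=
        mul_le_mul_of_nonneg_right h12 h10
      linarith
    · refine ⟨1 + B, by linarith, fun z hz => ?_⟩
      have h3 := hgB (4 * z) (by rw [h4re]; linarith)
      rw [hK]
      simp only
      rw [norm_div, Complex.norm_real, Real.norm_eq_abs, abs_of_pos hD0, div_le_iff₀ hD0]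
      have : 1 ≤ D := by rw [hD]; linarith
      nlinarith
  obtain ⟨C1, T1, hC1, hp1⟩ := far_pos (g := g) hD0 hGH (by
    intro x t hx
    rw [hK]
    simp only
    rw [norm_div, Complex.norm_real, Real.norm_eq_abs, abs_of_pos hD0, mul_div_cancel₀ _ hD0.ne']
    congr 2
    push_cast
    ring)
  obtain ⟨C2, T2, hC2, hp2⟩ := far_pos (g := conj ∘ g ∘ conj) hD0 (gh_conj hGH) (by
    intro x t hx
    rw [hK]
    simp only [Function.comp]
    rw [Complex.norm_conj, Complex.norm_conj, norm_div, Complex.norm_real, Real.norm_eq_abs, abs_of_pos hD0,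
      mul_div_cancel₀ _ hD0.ne']
    congr 2
    apply Complex.ext <;> simp)
  -- compactness
  set T : ℝ := max (max T1 T2) 1 with hT
  have hT0 : 1 ≤ T := le_max_right _ _
  have hLT : 0 < Real.log (Lam T) := by linarith [logLam_gt T]
  have hKc : IsCompact (Icc (1 / Real.log (Lam T)) 2 ×ℂ Icc (-T) T) := isCompact_Icc.reProdIm isCompact_Icc
  have hcont : ContinuousOn g (Icc (1 / Real.log (Lam T)) 2 ×ℂ Icc (-T) T) := by
    intro z hz
    rw [Complex.mem_reProdIm] at hz
    have h3 : 0 < z.re := lt_of_lt_of_le (by positivity) hz.1.1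
    exact (hg1 z h3).continuousAt.continuousWithinAt
  obtain ⟨C3, hC3⟩ := hKc.exists_bound_of_continuousOn hcont
  have hmain : ∀ u v : ℝ, 1 / Real.log (Lam u) ≤ v → v ≤ 2 → ‖g (v + u * I)‖ ≤ (C1 + C2 + |C3|) * ML u := by
    intro u v hv hv2
    have hM := ML_ge u
    have hM0 := ML_pos u
    have hLu : 0 < Real.log (Lam u) := by linarith [logLam_gt u]
    have hC3' := abs_nonneg C3
    rcases le_total T |u| with hc | hc
    · rcases le_total 0 u with h0 | h0
      · rw [abs_of_nonneg h0] at hc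
        refine (hp1 u v (by linarith [le_max_left (max T1 T2) 1, le_max_left T1 T2]) hv hv2).trans ?_
        exact mul_le_mul_of_nonneg_right (by linarith) hM0.le
      · rw [abs_of_nonpos h0] at hc
        have h3 := hp2 (-u) v (by linarith [le_max_left (max T1 T2) 1, le_max_right T1 T2]) (by rwa [Lam_neg]) hv2
        simp only [Function.comp] at h3
        rw [Complex.norm_conj, ML_neg] at h3
        have e1 : conj ((v : ℂ) + ((-u : ℝ) : ℂ) * I) = v + u * I := by
          apply Complex.ext <;> simp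
        rw [e1] at h3
        exact h3.trans (mul_le_mul_of_nonneg_right (by linarith) hM0.le)
    · have h3 : 1 / Real.log (Lam T) ≤ v := by
        refine le_trans ?_ hv
        apply one_div_le_one_div_of_le hLu
        apply Real.log_le_log (Lam_pos u)
        apply Lam_mono
        rw [abs_of_nonneg (by linarith : 0 ≤ T)]
        exact hc
      have h4 := hC3 ((v : ℂ) + u * I) (by
        rw [Complex.mem_reProdIm]
        simp only [add_re, ofReal_re, mul_re, I_re, mul_zero, ofReal_im, I_im, mul_one, sub_self, add_zero,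
          add_im, mul_im, zero_add, mem_Icc]
        rw [abs_le] at hc
        exact ⟨⟨h3, hv2⟩, hc⟩)
      have h5 := le_abs_self C3
      nlinarith
  refine ⟨C1 + C2 + |C3| + (B + 1), by positivity, fun u v hv => ?_⟩
  have hM := ML_ge u
  have hzre : ((v : ℂ) + u * I).re = v := by simp
  rcases le_total v 2 with hv2 | hv2
  · refine (hmain u v hv hv2).trans ?_
    apply mul_le_mul_of_nonneg_right _ (by linarith)
    linarith
  · refine (hgB (v + u * I) (by rw [hzre]; exact hv2)).trans ?_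
    have h8 : 0 ≤ C1 + C2 + |C3| := by positivity
    nlinarith

end Pool.Agent.H575.BD
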