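import Pool.Agent.H575.BD.Xi
import Pool.Graph.R_pool_sql_team_seeded_3997aac3.Q190.GB.Car
import Pool.Graph.R_pool_sql_team_seeded_1acbe0a2.Y688.AP.Log
import Pool.Graph.R_seed8.W613.HF.Step

/-!
# Project BD (helper286): positivity of `Re ξ'/ξ` under RH, and a bound (helper575)
After `Pool/Agent/Q190/GB/Pos.lean`, `Pool/Agent/Q211/GB/Bas.lean`.
-/

set_option autoImplicit false

namespace Pool.Agent.H575.BD

open Complex MeasureTheory Filter Topology Set
open scoped ComplexConjugate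
open Pool.Agent.Q286.BD (cl Lam ML)
open Pool.Agent.Q162.BD (G G_ne G_one G_diff G_ne_zero logDeriv_G zeta_ne)
open Pool.Agent.Y922.AP (xi)
open Pool.Agent.Y907.AP (xi_diff xi_sub xi_conj)
open Pool.Agent.Q66.GB (dg_bound dgr gr_ne gr_hd)

theorem xi_ne (hRH : RiemannHypothesis) {s : ℂ} (hs : 1 / 2 < s.re) : xi s ≠ 0 := by
  rw [X_eq (by linarith)]
  exact mul_ne_zero (gm_ne (by linarith)) (G_ne_zero hRH hs)

theorem pos (hRH : RiemannHypothesis) :
    (∀ s : ℂ, 1 / 2 < s.re → xi s ≠ 0 ∧ 0 ≤ (deriv xi s / xi s).re) ∧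
    (∀ x y : ℝ, ‖xi (1 / 2 - x + y * I)‖ = ‖xi (1 / 2 + x + y * I)‖) ∧
    (∀ x x' y : ℝ, 0 ≤ x → x ≤ x' → ‖xi (1 / 2 + x + y * I)‖ ≤ ‖xi (1 / 2 + x' + y * I)‖) := by
  have hne : ∀ s : ℂ, 1 / 2 < s.re → xi s ≠ 0 := fun s hs => xi_ne hRH hs
  have hG : H353.E.GLc 0 xi := by
    refine ⟨xi_diff, ⟨1, fun s => by rw [one_mul]; exact X_fe s⟩,
      Pool.Agent.W613.HF.slow_growth ⟨xi_diff, X_slow⟩, fun s hs => ?_⟩
    by_contra hcon
    push Not at hcon
    exact hne s (by linarith) hs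
  have hre : ∀ s : ℂ, 1 / 2 < s.re → 0 ≤ (deriv xi s / xi s).re := by
    intro s hs
    exact Pool.Agent.W613.HF.re_nonneg hG ⟨s, hne s hs⟩ (by linarith)
  refine ⟨fun s hs => ⟨hne s hs, hre s hs⟩, ?_, ?_⟩
  · intro x y
    rw [X_fe (1 / 2 - x + y * I), RCLike.norm_conj]
    congr 2
    apply Complex.ext
    · simp
      norm_num
      ring
    · simp
  · intro x x' y hx hxx'
    have hder : ∀ t : ℝ, HasDerivAt (fun t : ℝ => xi (1 / 2 + t + y * I))
        (deriv xi (1 / 2 + t + y * I)) t := by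
      intro t
      have h1 : HasDerivAt (fun t : ℝ => (1 / 2 + (t : ℂ) + y * I)) 1 t := by
        have h2 := ((hasDerivAt_id t).ofReal_comp.const_add (1 / 2 : ℂ)).add_const (y * I : ℂ)
        simpa using h2
      have h2 := (xi_diff (1 / 2 + t + y * I)).hasDerivAt
      have h3 := HasDerivAt.comp_of_eq t h2 h1 rfl
      rwa [mul_one] at h3
    have hre' : ∀ t : ℝ, HasDerivAt (fun t : ℝ => (xi (1 / 2 + t + y * I)).re)
        (deriv xi (1 / 2 + t + y * I)).re t := fun t =>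
      (Complex.reCLM.hasFDerivAt.comp_hasDerivAt t (hder t))
    have him' : ∀ t : ℝ, HasDerivAt (fun t : ℝ => (xi (1 / 2 + t + y * I)).im)
        (deriv xi (1 / 2 + t + y * I)).im t := fun t =>
      (Complex.imCLM.hasFDerivAt.comp_hasDerivAt t (hder t))
    have hsq : ∀ t : ℝ, HasDerivAt (fun t : ℝ => Complex.normSq (xi (1 / 2 + t + y * I)))
        (2 * ((deriv xi (1 / 2 + t + y * I)).re * (xi (1 / 2 + t + y * I)).re +
          (deriv xi (1 / 2 + t + y * I)).im * (xi (1 / 2 + t + y * I)).im)) t := by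
      intro t
      have h1 := ((hre' t).mul (hre' t)).add ((him' t).mul (him' t))
      refine (h1.congr_deriv (by ring)).congr_of_eventuallyEq ?_
      filter_upwards with u
      rw [Complex.normSq_apply]
      rfl
    have hmono : MonotoneOn (fun t : ℝ => Complex.normSq (xi (1 / 2 + t + y * I))) (Ici 0) := by
      refine monotoneOn_of_deriv_nonneg (convex_Ici 0)
        (fun t _ => (hsq t).continuousAt.continuousWithinAt)
        (fun t _ => (hsq t).differentiableAt.differentiableWithinAt) fun t ht => ?_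
      rw [interior_Ici] at ht
      rw [(hsq t).deriv]
      have hs : 1 / 2 < (1 / 2 + t + y * I : ℂ).re := by
        have h1 : (1 / 2 + t + y * I : ℂ).re = 1 / 2 + t := by
          simp
        rw [h1]
        linarith [show (0 : ℝ) < t from ht]
      have h1 := hre _ hs
      have h2 := Complex.normSq_pos.2 (hne _ hs)
      rw [Complex.div_re, ← add_div] at h1
      have h3 := mul_nonneg h1 h2.le
      rw [div_mul_cancel₀ _ h2.ne'] at h3
      linarith
    have h1 := hmono (show (0 : ℝ) ≤ x from hx) (show (0 : ℝ) ≤ x' from hx.trans hxx') hxx'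
    simp only [Complex.normSq_eq_norm_sq] at h1
    exact le_of_pow_le_pow_left₀ (by norm_num) (norm_nonneg _) h1

/-- the logarithmic derivative of `G` for `Re s ≥ 2` -/
theorem G_ld_bound : ∃ C : ℝ, 0 < C ∧ ∀ s : ℂ, 2 ≤ s.re → G s ≠ 0 ∧ ‖deriv G s / G s‖ ≤ C := by
  obtain ⟨C, hC, hb⟩ := Pool.Agent.Y688.AP.zeta_bd
  refine ⟨C + 1, by linarith, fun s hs => ?_⟩
  have h1 : s ≠ 1 := by
    rintro rfl
    simp at hs
  have h2 : riemannZeta s ≠ 0 := riemannZeta_ne_zero_of_one_le_re (by linarith)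
  refine ⟨by rw [G_ne h1]; exact mul_ne_zero (sub_ne_zero.2 h1) h2, ?_⟩
  rw [logDeriv_G h1 h2]
  refine (norm_add_le _ _).trans (add_le_add (hb s hs) ?_)
  rw [norm_div, norm_one, div_le_one (norm_pos_iff.2 (sub_ne_zero.2 h1))]
  have := Complex.re_le_norm (s - 1)
  rw [sub_re, one_re] at this
  linarith

/-- the bound for `ξ'/ξ` -/
theorem fb (hRH : RiemannHypothesis) : ∃ C : ℝ, 0 < C ∧ ∀ u v : ℝ, 0 < v → v ≤ 3 →
    ‖deriv xi (1 / 2 + v + u * I) / xi (1 / 2 + v + u * I)‖ ≤ C * Lam u / v := by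
  obtain ⟨A, hA, hL⟩ := G_ld_bound
  obtain ⟨Cγ, hCγ, hγ⟩ := gm_ld_bound (1 / 2) 4 (by norm_num)
  obtain ⟨hpos, -, -⟩ := pos hRH
  refine ⟨6 * (Cγ + A), by positivity, ?_⟩
  intro u v hv hv3
  set F : ℂ → ℂ := fun s => deriv xi s / xi s with hF
  set c : ℂ := 1 / 2 + (3 : ℝ) + u * I with hc
  have hcre : c.re = 7 / 2 := by
    rw [hc]
    simp
    norm_num
  have hcim : c.im = u := by
    rw [hc]
    simp
  have hmem : ∀ z ∈ Metric.ball c 3, 1 / 2 < z.re := by
    intro z hz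
    rw [mem_ball_iff_norm] at hz
    have h5 := (Complex.abs_re_le_norm (z - c)).trans_lt hz
    rw [sub_re, abs_lt] at h5
    linarith [h5.1]
  have hFc : ‖F c‖ ≤ (Cγ + A) * Lam u := by
    obtain ⟨a1, a2⟩ := hL c (by linarith)
    have h3 := X_ld (s := c) (by linarith) a1
    have h4 := hγ c (by linarith) (by linarith)
    have h6 := gm_ne (s := c) (by linarith)
    have h7 : ‖deriv gm c / gm c‖ ≤ Cγ * Lam u := by
      rw [norm_div, div_le_iff₀ (norm_pos_iff.2 h6)]
      rw [hcim] at h4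
      exact h4
    have h9 : F c = deriv gm c / gm c + deriv G c / G c := h3
    rw [h9]
    refine (norm_add_le _ _).trans ?_
    have h10 := Pool.Agent.Q261.BD.Lam_gt u
    nlinarith
  have hz : (1 / 2 + v + u * I : ℂ) ∈ Metric.ball c 3 := by
    rw [mem_ball_iff_norm, hc]
    have e : (1 / 2 + v + u * I : ℂ) - (1 / 2 + (3 : ℝ) + u * I) = ((v - 3 : ℝ) : ℂ) := by
      push_cast
      ring
    rw [e, Complex.norm_real, Real.norm_eq_abs, abs_lt]
    constructor <;> linarith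
  have hd : ‖(1 / 2 + v + u * I : ℂ) - c‖ = 3 - v := by
    have e : (1 / 2 + v + u * I : ℂ) - c = ((v - 3 : ℝ) : ℂ) := by
      rw [hc]
      push_cast
      ring
    rw [e, Complex.norm_real, Real.norm_eq_abs, abs_of_nonpos (by linarith)]
    ring
  have hcar := (Pool.Agent.Q190.GB.t_CAR F c 3 (by norm_num) (by
    intro z hz'
    have h3 := (hpos z (hmem z hz')).1
    exact ((xi_diff.analyticAt z).deriv.differentiableAt.div (xi_diff z) h3).differentiableWithinAt)
    (fun z hz' => (hpos z (hmem z hz')).2) _ hz).1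
  rw [hd] at hcar
  have h3 : (F c).re ≤ ‖F c‖ := Complex.re_le_norm _
  have h4 : 2 * (3 - v) / (3 - (3 - v)) * (F c).re ≤ 2 * (3 - v) / v * ‖F c‖ := by
    rw [show 3 - (3 - v) = v by ring]
    exact mul_le_mul_of_nonneg_left h3 (div_nonneg (by linarith) hv.le)
  have h5 : ‖F (1 / 2 + v + u * I)‖ ≤ ‖F c‖ + 2 * (3 - v) / v * ‖F c‖ := by
    calc ‖F (1 / 2 + v + u * I)‖ = ‖F c + (F (1 / 2 + v + u * I) - F c)‖ := by
          congr 1
          ring
      _ ≤ ‖F c‖ + ‖F (1 / 2 + v + u * I) - F c‖ := norm_add_le _ _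
      _ ≤ _ := by linarith
  have h6 : ‖F c‖ + 2 * (3 - v) / v * ‖F c‖ = (6 - v) * ‖F c‖ / v := by
    field_simp
    ring
  rw [h6] at h5
  refine h5.trans (div_le_div_of_nonneg_right ?_ hv.le)
  have h8 := norm_nonneg (F c)
  nlinarith

end Pool.Agent.H575.BD
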